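import Pool.Agent.Lib.MP_7bc51d_an_spec.TR2

set_option autoImplicit false

/-!
Areas of closed polygons in terms of their edges.
-/

namespace Pool.Agent.Lib.BilE

open Complex MeasureTheory Set Filter AddCircle
open scoped ComplexConjugate Topology ENNReal NNReal
open Pool.Agent.Lib.Bil Pool.Agent.Lib.BilM Pool.Agent.Lib.BilS

variable {n : ℕ} {v : Fin n → ℂ}

/-- The double sum over ordered pairs. -/
noncomputable def PS (n : ℕ) (E : Fin n → ℂ) : ℂ :=
  ∑ b, ∑ a, if a < b then conj (E b) * E a else 0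

theorem sum_pairs (E : Fin n → ℂ) :
    conj (∑ a, E a) * ∑ a, E a = (∑ a, conj (E a) * E a) + PS n E + conj (PS n E) := by
  have h1 : conj (∑ a, E a) * ∑ a, E a = ∑ b, ∑ a, conj (E b) * E a := by
    rw [map_sum, Finset.sum_mul_sum]
  have h2 : conj (PS n E) = ∑ b, ∑ a, if b < a then conj (E b) * E a else 0 := by
    have g1 : conj (PS n E) = ∑ b, ∑ a, if a < b then conj (E a) * E b else 0 := by
      unfold PS
      rw [map_sum]
      refine Finset.sum_congr rfl (fun b _ => ?_)
      rw [map_sum]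
      refine Finset.sum_congr rfl (fun a _ => ?_)
      by_cases h : a < b
      · rw [if_pos h, if_pos h, map_mul, conj_conj, mul_comm]
      · rw [if_neg h, if_neg h, map_zero]
    rw [g1]
    exact Finset.sum_comm
  have h3 : ∑ a, conj (E a) * E a = ∑ b, ∑ a, if a = b then conj (E b) * E a else 0 := by
    refine Finset.sum_congr rfl (fun b _ => ?_)
    rw [Finset.sum_ite_eq' Finset.univ b (fun a => conj (E b) * E a)]
    simp
  rw [h1, h2, h3]
  unfold PS
  rw [← Finset.sum_add_distrib, ← Finset.sum_add_distrib]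
  refine Finset.sum_congr rfl (fun b _ => ?_)
  rw [← Finset.sum_add_distrib, ← Finset.sum_add_distrib]
  refine Finset.sum_congr rfl (fun a _ => ?_)
  rcases lt_trichotomy a b with h | h | h
  · simp [h, h.ne, h.not_gt]
  · subst h; simp
  · simp [h, h.ne', h.not_gt]

theorem path_sum {m : ℕ} {g : Fin (m + 1) → ℂ} {E : Fin (m + 1) → ℂ}
    (h : ∀ a, g (finRotate (m + 1) a) - g a = E a) (b : Fin (m + 1)) :
    g b = g 0 + ∑ a, if a < b then E a else 0 := by
  obtain ⟨b, hb⟩ := b
  induction b with
  | zero =>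
    have : (∑ a : Fin (m + 1), if a < (⟨0, hb⟩ : Fin (m + 1)) then E a else 0) = 0 := by
      refine Finset.sum_eq_zero (fun a _ => ?_)
      rw [if_neg]
      intro h
      exact absurd h (by rw [Fin.lt_def]; simp)
    rw [this, add_zero]
    rfl
  | succ k ih =>
    have hk : k < m + 1 := by omega
    have h1 := ih hk
    have h2 := h ⟨k, hk⟩
    have h3 : finRotate (m + 1) ⟨k, hk⟩ = ⟨k + 1, hb⟩ := by
      apply Fin.ext
      rw [coe_finRotate_of_ne_last]
      intro h4
      have := congrArg Fin.val h4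
      simp only [Fin.val_last] at this
      omega
    rw [h3] at h2
    have h4 : (∑ a : Fin (m + 1), if a < (⟨k + 1, hb⟩ : Fin (m + 1)) then E a else 0) =
        (∑ a : Fin (m + 1), if a < (⟨k, hk⟩ : Fin (m + 1)) then E a else 0) + E ⟨k, hk⟩ := by
      have h5 : E ⟨k, hk⟩ = ∑ a : Fin (m + 1), if a = ⟨k, hk⟩ then E a else 0 := by
        rw [Finset.sum_ite_eq' Finset.univ (⟨k, hk⟩ : Fin (m + 1)) E]
        simp
      rw [h5, ← Finset.sum_add_distrib]
      refine Finset.sum_congr rfl (fun a _ => ?_)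
      rcases lt_trichotomy a.val k with h6 | h6 | h6
      · have g1 : a < (⟨k + 1, hb⟩ : Fin (m + 1)) := by rw [Fin.lt_def]; simp only; omega
        have g2 : a < (⟨k, hk⟩ : Fin (m + 1)) := by rw [Fin.lt_def]; simp only; omega
        have g3 : a ≠ ⟨k, hk⟩ := g2.ne
        simp [g1, g2, g3]
      · have g0 : a = ⟨k, hk⟩ := Fin.ext h6
        subst g0
        have g1 : (⟨k, hk⟩ : Fin (m + 1)) < ⟨k + 1, hb⟩ := by rw [Fin.lt_def]; simp
        simp [g1]
      · have g1 : ¬ a < (⟨k + 1, hb⟩ : Fin (m + 1)) := by rw [Fin.lt_def]; simp only; omega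
        have g2 : ¬ a < (⟨k, hk⟩ : Fin (m + 1)) := by rw [Fin.lt_def]; simp only; omega
        have g3 : a ≠ ⟨k, hk⟩ := by
          intro h7
          rw [h7] at h6
          simp at h6
        simp [g1, g2, g3]
    rw [h4]
    linear_combination h1 + h2

/-- The complex area through the edges. -/
theorem area_edges {m : ℕ} {g : Fin (m + 1) → ℂ} {E : Fin (m + 1) → ℂ}
    (h : ∀ a, g (finRotate (m + 1) a) - g a = E a) :
    ∑ a, conj (g (finRotate (m + 1) a) - g a) * (g a + g (finRotate (m + 1) a)) =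
      2 * I * (PS (m + 1) E).im := by
  have h0 : ∑ a, E a = 0 := by
    have h1 : ∑ a, g (finRotate (m + 1) a) = ∑ a, g a := Equiv.sum_comp (finRotate (m + 1)) g
    simp_rw [← h]
    rw [Finset.sum_sub_distrib, h1, sub_self]
  have h1 : ∀ b, conj (g (finRotate (m + 1) b) - g b) * (g b + g (finRotate (m + 1) b)) =
      conj (E b) * (2 * g 0) + 2 * (∑ a, if a < b then conj (E b) * E a else 0) +
        conj (E b) * E b := by
    intro b
    have h2 : g (finRotate (m + 1) b) = g b + E b := by rw [← h b]; ring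
    have h3 : (∑ a, if a < b then conj (E b) * E a else 0) =
        conj (E b) * ∑ a, if a < b then E a else 0 := by
      rw [Finset.mul_sum]
      refine Finset.sum_congr rfl (fun a _ => ?_)
      split_ifs
      · rfl
      · rw [mul_zero]
    rw [h b, h2, h3, path_sum h b]
    ring
  simp_rw [h1]
  rw [Finset.sum_add_distrib, Finset.sum_add_distrib, ← Finset.sum_mul, ← map_sum, h0, map_zero,
    zero_mul, zero_add, ← Finset.mul_sum]
  change 2 * PS (m + 1) E + _ = _
  have h4 := sum_pairs E
  rw [h0, mul_zero] at h4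
  have h5 : PS (m + 1) E + conj (PS (m + 1) E) = ((2 * (PS (m + 1) E).re : ℝ) : ℂ) :=
    Complex.add_conj _
  have h6 : ((PS (m + 1) E).re : ℂ) + ((PS (m + 1) E).im : ℂ) * I = PS (m + 1) E :=
    Complex.re_add_im _
  push_cast at h5
  linear_combination (-1) * h4 - h5 - 2 * h6

end Pool.Agent.Lib.BilE
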