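import Pool.Agent.Lib.MP_7bc51d_an_spec.Tri

set_option autoImplicit false

/-!
Dependence of the side amplitudes on the function, and polarisation.
-/

namespace Pool.Agent.Lib.BilE

open Complex MeasureTheory Set Filter AddCircle
open scoped ComplexConjugate Topology ENNReal NNReal
open Pool.Agent.Lib.Bil Pool.Agent.Lib.BilM Pool.Agent.Lib.BilS

variable {n : ℕ} {v : Fin n → ℂ}

/-- Half sum (`c = 1`) or half difference (`c = -1`). -/
noncomputable def cmb (F G : ℂ → ℝ → ℝ) (c : ℝ) (w : ℂ) (Q : ℝ) : ℝ := (F w Q + c * G w Q) / 2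

theorem cmb_LF {F G : ℂ → ℝ → ℝ} (hF : LF F) (hG : LF G) {c : ℝ} (hc : |c| ≤ 1) :
    LF (cmb F G c) := by
  refine ⟨(hF.meas.add (hG.meas.const_mul c)).div_const 2, fun w Q => ?_⟩
  unfold cmb
  have h1 := hF.bd w Q
  have h2 := hG.bd w Q
  have h3 : |c * G w Q| ≤ 1 * 1 := by rw [abs_mul]; gcongr
  have h4 := abs_le.1 h1
  have h5 := abs_le.1 h3
  rw [abs_le]
  constructor <;> linarith [h4.1, h4.2, h5.1, h5.2]

theorem cmb_HomF {F G : ℂ → ℝ → ℝ} (hF : HomF F) (hG : HomF G) (c : ℝ) : HomF (cmb F G c) := by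
  intro r hr w Q
  unfold cmb
  rw [hF r hr, hG r hr]

theorem cmb_SymAt {F G : ℂ → ℝ → ℝ} {a e : ℂ} (hF : SymAt F a e) (hG : SymAt G a e) (c : ℝ) :
    SymAt (cmb F G c) a e := by
  filter_upwards [hF, hG] with w h1 h2
  filter_upwards [h1, h2] with τ k1 k2 hτ
  unfold cmb
  rw [k1 hτ, k2 hτ]

theorem Mf_cmb {F G : ℂ → ℝ → ℝ} (hF : LF F) (hG : LF G) (c : ℝ) (a e w : ℂ) :
    Mf (cmb F G c) a e w = (1 / 2) * Mf F a e w + (c / 2) * Mf G a e w := by
  have hii : ∀ {H : ℂ → ℝ → ℝ}, LF H → IntervalIntegrable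
      (fun τ : ℝ => H w (cr w (a + (τ : ℂ) * e))) volume 0 1 := by
    intro H hH
    have := ii_mul hH a e w (d := fun _ => 1) continuous_const
    simpa using this
  have h1 : Sm (cmb F G c) a e 1 w = (1 / 2) * Sm F a e 1 w + (c / 2) * Sm G a e 1 w := by
    unfold Sm
    rw [← intervalIntegral.integral_const_mul, ← intervalIntegral.integral_const_mul,
      ← intervalIntegral.integral_add ((hii hF).const_mul _) ((hii hG).const_mul _)]
    apply intervalIntegral.integral_congr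
    intro τ _
    simp only [cmb]
    ring
  unfold Mf
  rw [h1]
  ring

theorem sF_cmb (hn : 3 ≤ n) (hv : ConvexIndependent ℝ v) {F G : ℂ → ℝ → ℝ} (hF : LF F)
    (hG : LF G) (hFh : HomF F) (hGh : HomF G) (c : ℝ) (i : Fin n) (k : ℤ) :
    sF hn hv (cmb F G c) i k = (sF hn hv F i k + c * sF hn hv G i k) / 2 := by
  unfold sF
  have h1 : cN (Mf (cmb F G c) (v i) (ed hn hv i)) k =
      (1 / 2) * cN (Mf F (v i) (ed hn hv i)) k + (c / 2) * cN (Mf G (v i) (ed hn hv i)) k := by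
    have h2 : Mf (cmb F G c) (v i) (ed hn hv i) = fun w =>
        (1 / 2) * Mf F (v i) (ed hn hv i) w + (c / 2) * Mf G (v i) (ed hn hv i) w := by
      funext w; exact Mf_cmb hF hG c _ _ w
    rw [h2, cN_add ((Mf_hom1 hF hFh _ _).smul _) ((Mf_hom1 hG hGh _ _).smul _), cN_smul, cN_smul]
    push_cast
    ring
  rw [h1]
  have h3 : ((1 / 2) * cN (Mf F (v i) (ed hn hv i)) k +
      (c / 2) * cN (Mf G (v i) (ed hn hv i)) k) * -I * ud hn hv i ^ k =
      ((1 / 2 : ℝ) : ℂ) * (cN (Mf F (v i) (ed hn hv i)) k * -I * ud hn hv i ^ k) +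
      ((c / 2 : ℝ) : ℂ) * (cN (Mf G (v i) (ed hn hv i)) k * -I * ud hn hv i ^ k) := by
    push_cast; ring
  rw [h3, add_re, re_ofReal_mul, re_ofReal_mul]
  ring

/-- The bilinear form of two amplitude vectors. -/
noncomputable def BQ (n : ℕ) (s t : Fin n → ℝ) (y : Fin n → Fin n → ℝ) : ℝ :=
  ∑ b, ∑ a, if a < b then (s a * t b + t a * s b) * y a b else 0

/-- The polarised energy identity. -/
theorem spec_bil (hn : 3 ≤ n) (hv : ConvexIndependent ℝ v) {F G : ℂ → ℝ → ℝ} (hF : LF F)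
    (hG : LF G) (hFh : HomF F) (hGh : HomF G)
    (hFs : ∀ i, SymAt F (v i) (v (nxt hn hv i) - v i))
    (hGs : ∀ i, SymAt G (v i) (v (nxt hn hv i) - v i))
    {σ : Equiv.Perm (Fin n)} (hσ : ∀ a, nxt hn hv (σ a) = σ (finRotate n a))
    {e : (ℂ → ℝ → ℝ) → ℤ → ℝ} {e2 : ℤ → ℝ}
    (hCr : ∀ H, LF H → HomF H → ∀ k,
      fourierCoeff (fun t : TT => ((Cr v H t : ℝ) : ℂ)) k = kap * ((e H k : ℝ) : ℂ))
    (hpol : ∀ k, e2 k = e (cmb F G 1) k - e (cmb F G (-1)) k) (k : ℤ) :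
    e2 (k - 1) - e2 (k + 1) = BQ n (fun a => sF hn hv F (σ a) k) (fun a => sF hn hv G (σ a) k)
      (fun a b => ((ud hn hv (σ b) * conj (ud hn hv (σ a))) ^ k).im) := by
  have key : ∀ c : ℝ, |c| ≤ 1 → e (cmb F G c) (k - 1) - e (cmb F G c) (k + 1) =
      2 * ∑ b, ∑ a, if a < b then sF hn hv (cmb F G c) (σ a) k * sF hn hv (cmb F G c) (σ b) k *
        ((ud hn hv (σ b) * conj (ud hn hv (σ a))) ^ k).im else 0 := by
    intro c hc
    have hL := cmb_LF hF hG hc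
    have hH := cmb_HomF hFh hGh c
    have hS : ∀ i, SymAt (cmb F G c) (v i) (v (nxt hn hv i) - v i) := fun i =>
      cmb_SymAt (hFs i) (hGs i) c
    rw [spec_quad hn hv hL hH hS hσ (hCr _ hL hH) k, PS_im hn hv hL hH hS σ k]
  have h1 := key 1 (by norm_num)
  have h2 := key (-1) (by norm_num)
  rw [hpol, hpol]
  have h3 : e (cmb F G 1) (k - 1) - e (cmb F G (-1)) (k - 1) -
      (e (cmb F G 1) (k + 1) - e (cmb F G (-1)) (k + 1)) =
      (e (cmb F G 1) (k - 1) - e (cmb F G 1) (k + 1)) -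
      (e (cmb F G (-1)) (k - 1) - e (cmb F G (-1)) (k + 1)) := by ring
  rw [h3, h1, h2, ← mul_sub, ← Finset.sum_sub_distrib, Finset.mul_sum]
  unfold BQ
  refine Finset.sum_congr rfl (fun b _ => ?_)
  rw [← Finset.sum_sub_distrib, Finset.mul_sum]
  refine Finset.sum_congr rfl (fun a _ => ?_)
  split_ifs
  · rw [sF_cmb hn hv hF hG hFh hGh, sF_cmb hn hv hF hG hFh hGh, sF_cmb hn hv hF hG hFh hGh,
      sF_cmb hn hv hF hG hFh hGh]
    ring
  · ring

end Pool.Agent.Lib.BilE
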