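import Pool.Agent.Lib.MP_7bc51d_an_tri.Link

set_option autoImplicit false

/-!
The measure of the intersection as the sum of the energies.
-/

namespace Pool.Agent.Lib.BilE

open Complex MeasureTheory Set Filter AddCircle
open scoped ComplexConjugate Topology ENNReal NNReal Real
open Pool.Agent.Lib.Bil Pool.Agent.Lib.BilM Pool.Agent.Lib.BilS Pool.Agent.Lib.BilX
open Pool.Agent.Lib.BilT

variable {n : ℕ} {v : Fin n → ℂ}

theorem pars_sq {m : TT → ℝ} (hm : Measurable m) {B : ℝ} (hb : ∀ t, |m t| ≤ B) :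
    HasSum (fun k : ℤ => ‖fourierCoeff (fun t : TT => ((m t : ℝ) : ℂ)) k‖ ^ 2)
      (∫ t, m t ^ 2 ∂haarAddCircle) := by
  have hmem : MemLp (fun t : TT => ((m t : ℝ) : ℂ)) 2 (haarAddCircle : Measure TT) := by
    refine MemLp.of_bound (C := B) (Complex.measurable_ofReal.comp hm).aestronglyMeasurable ?_
    refine Eventually.of_forall (fun t => ?_)
    rw [norm_real, Real.norm_eq_abs]
    exact hb t
  have h1 := hasSum_sq_fourierCoeff hmem.toLp
  have h2 : fourierCoeff (⇑hmem.toLp) = fourierCoeff (fun t : TT => ((m t : ℝ) : ℂ)) :=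
    fourierCoeff_congr_ae hmem.coeFn_toLp
  rw [h2] at h1
  have h3 : ∫ t : TT, ‖(⇑hmem.toLp : TT → ℂ) t‖ ^ 2 ∂haarAddCircle =
      ∫ t, m t ^ 2 ∂haarAddCircle := by
    apply integral_congr_ae
    filter_upwards [hmem.coeFn_toLp] with t ht
    rw [ht, norm_real, Real.norm_eq_abs, sq_abs]
  rw [h3] at h1
  exact h1

theorem mean_TT {m : TT → ℝ} :
    ∫ t, m t ∂haarAddCircle = (1 / (2 * π)) * ∫ θ in Ioo (-π) π, m (θ : TT) := by
  have h := fourierCoeff_eq_intervalIntegral (T := 2 * π) (fun t : TT => ((m t : ℝ) : ℂ)) 0 (-π)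
  have e1 : -π + 2 * π = π := by ring
  rw [e1, intervalIntegral.integral_of_le (by linarith [Real.pi_pos]),
    integral_Ioc_eq_integral_Ioo] at h
  unfold fourierCoeff at h
  simp only [neg_zero, fourier_zero, one_smul] at h
  have h1 : ((∫ t, m t ∂haarAddCircle : ℝ) : ℂ) =
      (((1 / (2 * π)) * ∫ θ in Ioo (-π) π, m (θ : TT) : ℝ) : ℂ) := by
    rw [← integral_complex_ofReal, h]
    push_cast
    rw [← integral_complex_ofReal]
    rw [real_smul]
    push_cast
    rfl
  exact_mod_cast h1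

/-- Parseval in a fibre. -/
theorem pars_fib {A B : Set (ℂ × ℂ)} (hA : MeasurableSet A) (hB : MeasurableSet B)
    (hcA : Cone A) (hcB : Cone B) (x : ℂ) :
    HasSum (fun k : ℤ => (cN (DA A x) k * conj (cN (DA B x) k)).re) (frac (A ∩ B) x) := by
  have hmA : Measurable (fun t : TT => DA A x (rho t)) := (DA_hom1 hA hcA x).1.comp measurable_rho
  have hmB : Measurable (fun t : TT => DA B x (rho t)) := (DA_hom1 hB hcB x).1.comp measurable_rho
  have hv : ∀ (A : Set (ℂ × ℂ)) (t : TT), DA A x (rho t) = A.indicator 1 (x, rho t) := by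
    intro A t
    unfold DA
    rw [norm_rho, one_mul]
  have hbA : ∀ (A : Set (ℂ × ℂ)) (t : TT), |DA A x (rho t)| ≤ 1 := by
    intro A t
    rw [hv]
    by_cases h : (x, rho t) ∈ A
    · rw [indicator_of_mem h]; simp
    · rw [indicator_of_notMem h]; simp
  set p : TT → ℝ := fun t => (DA A x (rho t) + DA B x (rho t)) / 2 with hp
  set q : TT → ℝ := fun t => (DA A x (rho t) - DA B x (rho t)) / 2 with hq
  have hpm : Measurable p := (hmA.add hmB).div_const 2
  have hqm : Measurable q := (hmA.sub hmB).div_const 2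
  have hpb : ∀ t, |p t| ≤ 1 := by
    intro t
    have h1 := abs_le.1 (hbA A t)
    have h2 := abs_le.1 (hbA B t)
    rw [hp, abs_le]
    constructor <;> simp only <;> linarith
  have hqb : ∀ t, |q t| ≤ 1 := by
    intro t
    have h1 := abs_le.1 (hbA A t)
    have h2 := abs_le.1 (hbA B t)
    rw [hq, abs_le]
    constructor <;> simp only <;> linarith
  have s1 := (pars_sq hpm hpb).sub (pars_sq hqm hqb)
  have hi : ∀ {f : TT → ℝ}, Measurable f → (∀ t, |f t| ≤ 1) →
      Integrable f (haarAddCircle : Measure TT) := by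
    intro f hf hfb
    refine Integrable.mono' (integrable_const (1 : ℝ)) hf.aestronglyMeasurable ?_
    exact Eventually.of_forall (fun t => by rw [Real.norm_eq_abs]; exact hfb t)
  have hsq : ∀ {f : TT → ℝ}, (∀ t, |f t| ≤ 1) → ∀ t, |f t ^ 2| ≤ 1 := by
    intro f hf t
    rw [abs_pow]
    exact pow_le_one₀ (abs_nonneg _) (hf t)
  have cc : ∀ (f : TT → ℝ) (k : ℤ), fourierCoeff (fun t : TT => ((f t : ℝ) : ℂ)) k =
      ∫ t, (fourier (-k) t : ℂ) * ((f t : ℝ) : ℂ) ∂haarAddCircle := by
    intro f k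
    unfold fourierCoeff
    rfl
  have hic : ∀ {f : TT → ℝ}, Measurable f → (∀ t, |f t| ≤ 1) → ∀ k : ℤ,
      Integrable (fun t => (fourier (-k) t : ℂ) * ((f t : ℝ) : ℂ))
        (haarAddCircle : Measure TT) := by
    intro f hf hfb k
    refine Integrable.mono' (integrable_const (1 : ℝ))
      (((map_continuous (fourier (-k))).measurable.mul
        (Complex.measurable_ofReal.comp hf)).aestronglyMeasurable) ?_
    refine Eventually.of_forall (fun t => ?_)
    rw [norm_mul, norm_real, Real.norm_eq_abs]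
    have h1 : ‖(fourier (-k) t : ℂ)‖ = 1 := Circle.norm_coe _
    rw [h1, one_mul]
    exact hfb t
  have cp : ∀ k, fourierCoeff (fun t : TT => ((p t : ℝ) : ℂ)) k =
      (cN (DA A x) k + cN (DA B x) k) / 2 := by
    intro k
    unfold cN
    rw [cc, cc, cc, ← integral_add (hic hmA (hbA A) k) (hic hmB (hbA B) k), ← integral_div]
    congr 1
    funext t
    rw [hp]
    push_cast
    ring
  have cq : ∀ k, fourierCoeff (fun t : TT => ((q t : ℝ) : ℂ)) k =
      (cN (DA A x) k - cN (DA B x) k) / 2 := by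
    intro k
    unfold cN
    rw [cc, cc, cc, ← integral_sub (hic hmA (hbA A) k) (hic hmB (hbA B) k), ← integral_div]
    congr 1
    funext t
    rw [hq]
    push_cast
    ring
  have e1 : (∫ t, p t ^ 2 ∂haarAddCircle) - ∫ t, q t ^ 2 ∂haarAddCircle = frac (A ∩ B) x := by
    rw [← integral_sub (hi (hpm.pow_const 2) (hsq hpb)) (hi (hqm.pow_const 2) (hsq hqb)), mean_TT]
    have hcx : ∀ w : ℂ, ∀ c : ℝ, 0 < c → (w ∈ sl (A ∩ B) x ↔ (c : ℂ) * w ∈ sl (A ∩ B) x) := by
      intro w c h
      constructor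
      · intro hw
        exact ⟨(hcA x w c h).1 hw.1, (hcB x w c h).1 hw.2⟩
      · intro hw
        exact ⟨(hcA x w c h).2 hw.1, (hcB x w c h).2 hw.2⟩
    unfold frac
    rw [vol_cone (measurableSet_sl (hA.inter hB) x) hcx]
    have h3 : ∀ θ : ℝ, p (θ : TT) ^ 2 - q (θ : TT) ^ 2 =
        (sl (A ∩ B) x).indicator (1 : ℂ → ℝ) (ut θ) := by
      intro θ
      have h4 : (sl (A ∩ B) x).indicator (1 : ℂ → ℝ) (ut θ) = (A ∩ B).indicator 1 (x, ut θ) := rfl
      rw [h4, hp, hq]
      simp only
      rw [hv, hv, rho_ut, inter_indicator_one]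
      simp only [Pi.mul_apply]
      ring
    simp_rw [h3]
    field_simp
  rw [e1] at s1
  refine s1.congr_fun ?_
  intro k
  rw [cp, cq]
  rw [← Complex.normSq_eq_norm_sq, ← Complex.normSq_eq_norm_sq, Complex.normSq_apply,
    Complex.normSq_apply]
  simp only [mul_re, conj_re, conj_im, add_re, add_im, sub_re, sub_im, div_ofNat_re, div_ofNat_im]
  ring

/-- The relative measure of an intersection is the sum of the energies. -/
theorem pars_sets {A B : Set (ℂ × ℂ)} (hA : IS v A) (hB : IS v B) :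
    HasSum (fun k : ℤ => am v (fun s => Real.cos (k * s)) A B) (mm v (A ∩ B)) := by
  have h1 : ∀ k : ℤ, E2 v (FA v A) (FA v B) k =
      ∫ x in PP v, (cN (DA A x) k * conj (cN (DA B x) k)).re := by
    intro k
    unfold E2
    apply setIntegral_congr_ae isOpen_PP.measurableSet
    filter_upwards [ae_cN_DA (v := v) hA.meas hA.cone hA.ch,
      ae_cN_DA (v := v) hB.meas hB.cone hB.ch] with x h1 h2 hx
    rw [h1 hx, h2 hx]
  have hint : ∀ k : ℤ, Integrable (fun x => (cN (DA A x) k * conj (cN (DA B x) k)).re)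
      (volume.restrict (PP v)) := by
    intro k
    refine (int_E2 (v := v) (LF_FA (v := v) hA.meas) (LF_FA (v := v) hB.meas) k).congr ?_
    rw [EventuallyEq, ae_restrict_iff' isOpen_PP.measurableSet]
    filter_upwards [ae_cN_DA (v := v) hA.meas hA.cone hA.ch,
      ae_cN_DA (v := v) hB.meas hB.cone hB.ch] with x h1 h2 hx
    rw [h1 hx, h2 hx]
  have hsum : Summable (fun k : ℤ =>
      ∫ x in PP v, ‖(cN (DA A x) k * conj (cN (DA B x) k)).re‖) := by
    have hs := ((BilT.EE_summable (v := v) (LF_FA (v := v) hA.meas)).add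
      (BilT.EE_summable (v := v) (LF_FA (v := v) hB.meas))).div_const 2
    refine Summable.of_nonneg_of_le (fun k => integral_nonneg (fun x => norm_nonneg _)) ?_ hs
    intro k
    have e1 : ∫ x in PP v, ‖(cN (DA A x) k * conj (cN (DA B x) k)).re‖ =
        ∫ x in PP v, ‖(cN (Dx (FA v A) x) k * conj (cN (Dx (FA v B) x) k)).re‖ := by
      apply setIntegral_congr_ae isOpen_PP.measurableSet
      filter_upwards [ae_cN_DA (v := v) hA.meas hA.cone hA.ch,
        ae_cN_DA (v := v) hB.meas hB.cone hB.ch] with x h1 h2 hx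
      rw [h1 hx, h2 hx]
    rw [e1]
    unfold BilT.EE
    rw [← integral_add (int_sq (LF_FA hA.meas) k) (int_sq (LF_FA hB.meas) k), ← integral_div]
    refine integral_mono_of_nonneg (Eventually.of_forall (fun x => norm_nonneg _))
      (((int_sq (LF_FA hA.meas) k).add (int_sq (LF_FA hB.meas) k)).div_const 2) ?_
    refine Eventually.of_forall (fun x => ?_)
    simp only
    rw [Real.norm_eq_abs]
    refine (Complex.abs_re_le_norm _).trans ?_
    rw [norm_mul, RCLike.norm_conj]
    nlinarith [sq_nonneg (‖cN (Dx (FA v A) x) k‖ - ‖cN (Dx (FA v B) x) k‖)]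
  have h2 := hasSum_integral_of_summable_integral_norm hint hsum
  have h3 : ∀ x, ∑' k : ℤ, (cN (DA A x) k * conj (cN (DA B x) k)).re = frac (A ∩ B) x :=
    fun x => (pars_fib hA.meas hB.meas hA.cone hB.cone x).tsum_eq
  simp_rw [h3] at h2
  have h4 := h2.div_const (ar v)
  unfold mm
  refine h4.congr_fun ?_
  intro k
  rw [am_cos hA hB, h1]

end Pool.Agent.Lib.BilE
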