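import Pool.Agent.Lib.MP_7bc51d_an_spec.Area

set_option autoImplicit false

/-!
The angular energy identity in terms of the side coefficients.
-/

namespace Pool.Agent.Lib.BilE

open Complex MeasureTheory Set Filter AddCircle
open scoped ComplexConjugate Topology ENNReal NNReal
open Pool.Agent.Lib.Bil Pool.Agent.Lib.BilM Pool.Agent.Lib.BilS

variable {n : ℕ} {v : Fin n → ℂ}

theorem conj_rho (t : TT) : conj (rho t) = (rho t)⁻¹ :=
  eq_inv_of_mul_eq_one_left (conj_mul_self' (norm_rho t))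

theorem fourierCoeff_rho {C : TT → ℂ} (k : ℤ) :
    fourierCoeff (fun t : TT => rho t * C t) k = fourierCoeff C (k - 1) := by
  unfold fourierCoeff
  congr 1
  funext t
  rw [smul_eq_mul, smul_eq_mul, ← mul_assoc]
  congr 1
  rw [fourier_rho, fourier_rho, ← zpow_add_one₀ (rho_ne t)]
  congr 1
  ring

theorem fourierCoeff_rho_conj {C : TT → ℂ} (k : ℤ) :
    fourierCoeff (fun t : TT => conj (rho t) * C t) k = fourierCoeff C (k + 1) := by
  unfold fourierCoeff
  congr 1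
  funext t
  rw [smul_eq_mul, smul_eq_mul, ← mul_assoc]
  congr 1
  rw [conj_rho, fourier_rho, fourier_rho, ← zpow_sub_one₀ (rho_ne t)]
  congr 1
  ring

theorem coeff_sin {C : TT → ℝ} (hC : Continuous C) (k : ℤ) :
    fourierCoeff (fun t : TT => (((- (rho t).im * C t : ℝ)) : ℂ)) k =
      (I / 2) * (fourierCoeff (fun t : TT => ((C t : ℝ) : ℂ)) (k - 1) -
        fourierCoeff (fun t : TT => ((C t : ℝ) : ℂ)) (k + 1)) := by
  rw [← fourierCoeff_rho, ← fourierCoeff_rho_conj]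
  have hc : Continuous (fun t : TT => ((C t : ℝ) : ℂ)) := Complex.continuous_ofReal.comp hC
  have h1 : Continuous (fun t : TT => rho t * ((C t : ℝ) : ℂ)) := continuous_rho.mul hc
  have h2 : Continuous (fun t : TT => conj (rho t) * ((C t : ℝ) : ℂ)) :=
    (Complex.continuous_conj.comp continuous_rho).mul hc
  have i1 : Integrable (fun t : TT => (fourier (-k) t : ℂ) • (rho t * ((C t : ℝ) : ℂ)))
      haarAddCircle :=
    (((map_continuous (fourier (-k))).smul h1).integrable_of_hasCompactSupport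
      (HasCompactSupport.of_compactSpace _))
  have i2 : Integrable (fun t : TT => (fourier (-k) t : ℂ) • (conj (rho t) * ((C t : ℝ) : ℂ)))
      haarAddCircle :=
    (((map_continuous (fourier (-k))).smul h2).integrable_of_hasCompactSupport
      (HasCompactSupport.of_compactSpace _))
  unfold fourierCoeff
  rw [← integral_sub i1 i2, ← integral_const_mul]
  congr 1
  funext t
  simp only [smul_eq_mul]
  have h3 : ((rho t).im : ℂ) = (rho t - conj (rho t)) / (2 * I) := by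
    have := Complex.im_eq_sub_conj (rho t)
    exact this
  push_cast
  rw [h3]
  have hI : I ≠ 0 := I_ne_zero
  field_simp
  linear_combination (-(rho t) * ((C t : ℝ) : ℂ) + conj (rho t) * ((C t : ℝ) : ℂ)) * I_sq

/-- The energy identity for one function. -/
theorem spec_quad (hn : 3 ≤ n) (hv : ConvexIndependent ℝ v) {F : ℂ → ℝ → ℝ} (hF : LF F)
    (hhom : HomF F) (hs : ∀ i, SymAt F (v i) (v (nxt hn hv i) - v i))
    {σ : Equiv.Perm (Fin n)} (hσ : ∀ a, nxt hn hv (σ a) = σ (finRotate n a)) {e : ℤ → ℝ}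
    (hCr : ∀ k, fourierCoeff (fun t : TT => ((Cr v F t : ℝ) : ℂ)) k = kap * ((e k : ℝ) : ℂ))
    (k : ℤ) :
    e (k - 1) - e (k + 1) =
      2 * (PS n (fun a => cN (Mf F (v (σ a)) (ed hn hv (σ a))) k)).im := by
  have h1 := coeff_area hn hv hF hhom hs k
  rw [coeff_sin (Cr_cont hF), hCr, hCr] at h1
  have h2 : Ar hn hv (fun i => cN (gam v F i) k) =
      2 * I * (PS n (fun a => cN (Mf F (v (σ a)) (ed hn hv (σ a))) k)).im := by
    obtain ⟨m, rfl⟩ : ∃ m, n = m + 1 := ⟨n - 1, by omega⟩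
    rw [← area_edges (g := fun a => cN (gam v F (σ a)) k) (fun a => by
      rw [← hσ a]
      exact (cN_Mf hn hv hF hhom (σ a) k).symm)]
    unfold Ar
    rw [← Equiv.sum_comp σ]
    refine Finset.sum_congr rfl (fun a _ => ?_)
    rw [hσ a]
  rw [h2] at h1
  have h3 := kap_ne
  have h4 : ((e (k - 1) - e (k + 1) : ℝ) : ℂ) =
      ((2 * (PS n (fun a => cN (Mf F (v (σ a)) (ed hn hv (σ a))) k)).im : ℝ) : ℂ) := by
    have h5 : (kap * (I / 2)) * ((e (k - 1) - e (k + 1) : ℝ) : ℂ) = (kap * (I / 2)) *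
        ((2 * (PS n (fun a => cN (Mf F (v (σ a)) (ed hn hv (σ a))) k)).im : ℝ) : ℂ) := by
      push_cast
      linear_combination h1
    have h6 : kap * (I / 2) ≠ 0 := mul_ne_zero h3 (div_ne_zero I_ne_zero two_ne_zero)
    exact mul_left_cancel₀ h6 h5
  exact_mod_cast h4

/-- The unit direction of a side. -/
noncomputable def ud (hn : 3 ≤ n) (hv : ConvexIndependent ℝ v) (i : Fin n) : ℂ :=
  rho (sarg (ed hn hv i))

theorem norm_ud (hn : 3 ≤ n) (hv : ConvexIndependent ℝ v) (i : Fin n) : ‖ud hn hv i‖ = 1 :=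
  norm_rho _

/-- The real amplitude of a side. -/
noncomputable def sF (hn : 3 ≤ n) (hv : ConvexIndependent ℝ v) (F : ℂ → ℝ → ℝ) (i : Fin n)
    (k : ℤ) : ℝ :=
  (cN (Mf F (v i) (ed hn hv i)) k * (-I) * ud hn hv i ^ k).re

theorem cN_sF (hn : 3 ≤ n) (hv : ConvexIndependent ℝ v) {F : ℂ → ℝ → ℝ} (hF : LF F)
    (hhom : HomF F) (hs : ∀ i, SymAt F (v i) (v (nxt hn hv i) - v i)) (i : Fin n) (k : ℤ) :
    cN (Mf F (v i) (ed hn hv i)) k = I * (sF hn hv F i k : ℝ) * (ud hn hv i ^ k)⁻¹ := by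
  have hne : ed hn hv i ≠ 0 := v_sub_ne hv (nxt_side hn hv i).ne
  obtain ⟨r, hr⟩ := phase (Mf_hom1 hF hhom _ _) hne (cr_neg_rl hne (hs i)) k
  have h1 : (fourier (-k) (sarg (ed hn hv i)) : ℂ) = (ud hn hv i ^ k)⁻¹ := by
    rw [fourier_rho, zpow_neg]
    rfl
  have h2 : ud hn hv i ^ k ≠ 0 := zpow_ne_zero _ (rho_ne _)
  rw [h1] at hr
  have h3 : sF hn hv F i k = r := by
    unfold sF
    rw [hr]
    have : I * (r : ℂ) * (ud hn hv i ^ k)⁻¹ * (-I) * ud hn hv i ^ k = (r : ℂ) := by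
      field_simp
      rw [I_sq]
      ring
    rw [this, ofReal_re]
  rw [h3, hr]

/-- Closing relation. -/
theorem closing (hn : 3 ≤ n) (hv : ConvexIndependent ℝ v) {F : ℂ → ℝ → ℝ} (hF : LF F)
    (hhom : HomF F) (hs : ∀ i, SymAt F (v i) (v (nxt hn hv i) - v i)) (k : ℤ) :
    ∑ i, (sF hn hv F i k : ℂ) * ud hn hv i ^ k = 0 := by
  have h1 : ∑ i, cN (Mf F (v i) (ed hn hv i)) k = 0 := by
    simp_rw [show ∀ i, cN (Mf F (v i) (ed hn hv i)) k =
      cN (gam v F (nxt hn hv i)) k - cN (gam v F i) k from fun i => cN_Mf hn hv hF hhom i k]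
    rw [Finset.sum_sub_distrib, sum_nxt_C hn hv (fun i => cN (gam v F i) k), sub_self]
  have h2 : ∀ i, conj ((ud hn hv i ^ k)⁻¹) = ud hn hv i ^ k := by
    intro i
    have h3 : conj (ud hn hv i) = (ud hn hv i)⁻¹ := conj_rho _
    rw [map_inv₀, map_zpow₀, h3, inv_zpow, inv_inv]
  have h4 := congrArg conj h1
  rw [map_sum, map_zero] at h4
  have h5 : ∑ i, conj (cN (Mf F (v i) (ed hn hv i)) k) =
      (-I) * ∑ i, (sF hn hv F i k : ℂ) * ud hn hv i ^ k := by
    rw [Finset.mul_sum]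
    refine Finset.sum_congr rfl (fun i _ => ?_)
    rw [cN_sF hn hv hF hhom hs i k, map_mul, map_mul, conj_I, conj_ofReal, h2]
    ring
  rw [h5] at h4
  exact (mul_eq_zero.1 h4).resolve_left (neg_ne_zero.2 I_ne_zero)

theorem PS_im (hn : 3 ≤ n) (hv : ConvexIndependent ℝ v) {F : ℂ → ℝ → ℝ} (hF : LF F)
    (hhom : HomF F) (hs : ∀ i, SymAt F (v i) (v (nxt hn hv i) - v i))
    (σ : Equiv.Perm (Fin n)) (k : ℤ) :
    (PS n (fun a => cN (Mf F (v (σ a)) (ed hn hv (σ a))) k)).im =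
      ∑ b, ∑ a, if a < b then sF hn hv F (σ a) k * sF hn hv F (σ b) k *
        ((ud hn hv (σ b) * conj (ud hn hv (σ a))) ^ k).im else 0 := by
  unfold PS
  rw [im_sum]
  refine Finset.sum_congr rfl (fun b _ => ?_)
  rw [im_sum]
  refine Finset.sum_congr rfl (fun a _ => ?_)
  split_ifs
  · have hc : ∀ i, conj (ud hn hv i) = (ud hn hv i)⁻¹ := fun i => conj_rho _
    have h1 : conj (cN (Mf F (v (σ b)) (ed hn hv (σ b))) k) *
        cN (Mf F (v (σ a)) (ed hn hv (σ a))) k =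
        ((sF hn hv F (σ a) k * sF hn hv F (σ b) k : ℝ) : ℂ) *
          (ud hn hv (σ b) * conj (ud hn hv (σ a))) ^ k := by
      rw [cN_sF hn hv hF hhom hs (σ b) k, cN_sF hn hv hF hhom hs (σ a) k, map_mul, map_mul,
        conj_I, conj_ofReal, map_inv₀, map_zpow₀, hc, hc, mul_zpow, inv_zpow, inv_zpow, inv_inv]
      push_cast
      linear_combination (-(sF hn hv F (σ a) k : ℂ) * (sF hn hv F (σ b) k : ℂ) *
        ud hn hv (σ b) ^ k * (ud hn hv (σ a) ^ k)⁻¹) * I_sq
    rw [h1, im_ofReal_mul]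
  · rfl

end Pool.Agent.Lib.BilE
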