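import Pool.Agent.Lib.MP_7bc51d_an_spec.Side

set_option autoImplicit false

/-!
The identities for invariant sets.
-/

namespace Pool.Agent.Lib.BilE

open Complex MeasureTheory Set Filter AddCircle
open scoped ComplexConjugate Topology ENNReal NNReal
open Pool.Agent.Lib.Bil Pool.Agent.Lib.BilM Pool.Agent.Lib.BilS

variable {n : ℕ} {v : Fin n → ℂ}

/-- Invariant sets. -/
structure IV (v : Fin n → ℂ) (A : Set (ℂ × ℂ)) : Prop where
  meas : MeasurableSet A
  cone : ∀ x w : ℂ, ∀ c : ℝ, 0 < c → ((x, w) ∈ A ↔ (x, (c : ℂ) * w) ∈ A)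
  inv : Inv v A
  ch : ∀ᵐ w, ChordAt v A w

theorem IV.lf {A : Set (ℂ × ℂ)} (h : IV v A) : LF (FA v A) := LF_FA (v := v) h.meas

theorem IV.hom {A : Set (ℂ × ℂ)} (h : IV v A) : HomF (FA v A) := FA_hom h.cone

theorem IV.sym (hn : 3 ≤ n) (hv : ConvexIndependent ℝ v) {A : Set (ℂ × ℂ)} (h : IV v A)
    (i : Fin n) : SymAt (FA v A) (v i) (v (nxt hn hv i) - v i) :=
  symAt_FA hn hv h.inv h.ch (nxt_side hn hv i)

/-- Closing relation. -/
theorem closing_set (hn : 3 ≤ n) (hv : ConvexIndependent ℝ v) {A : Set (ℂ × ℂ)} (h : IV v A)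
    (k : ℤ) : ∑ i, (amp v A i (nxt hn hv i) k : ℂ) * ud hn hv i ^ k = 0 := by
  have h1 := closing hn hv h.lf h.hom (h.sym hn hv) k
  rw [← h1]
  refine Finset.sum_congr rfl (fun i _ => ?_)
  rw [sF_amp hn hv h.meas h.cone h.inv h.ch]

theorem amp_zero (A : Set (ℂ × ℂ)) (i j : Fin n) : amp v A i j 0 = 0 := by
  unfold amp; simp

theorem amp_neg (A : Set (ℂ × ℂ)) (i j : Fin n) (k : ℤ) : amp v A i j (-k) = - amp v A i j k := by
  unfold amp
  have h : ∀ θ : ℝ, ‖v j - v i‖ * Real.sin θ * litR v A i j (ut θ * (v j - v i)) *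
      Real.sin (((-k : ℤ) : ℝ) * θ) = -(‖v j - v i‖ * Real.sin θ *
      litR v A i j (ut θ * (v j - v i)) * Real.sin ((k : ℝ) * θ)) := by
    intro θ
    have : ((-k : ℤ) : ℝ) * θ = -((k : ℝ) * θ) := by push_cast; ring
    rw [this, Real.sin_neg]
    ring
  simp_rw [h]
  rw [integral_neg]
  ring

/-- Sets with the same amplitudes agree. -/
theorem uniq_set (hn : 3 ≤ n) (hv : ConvexIndependent ℝ v) {A B : Set (ℂ × ℂ)} (hA : IV v A)
    (hB : IV v B)
    (h : ∀ i, ∀ k : ℕ, 1 ≤ k → amp v A i (nxt hn hv i) k = amp v B i (nxt hn hv i) k) :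
    volume ({p : ℂ × ℂ | ¬ (p ∈ A ↔ p ∈ B)} ∩ (PP v ×ˢ BV)) = 0 := by
  have hall : ∀ i, ∀ k : ℤ, amp v A i (nxt hn hv i) k = amp v B i (nxt hn hv i) k := by
    intro i k
    obtain ⟨m, rfl | rfl⟩ := Int.eq_nat_or_neg k
    · rcases Nat.eq_zero_or_pos m with h0 | h0
      · subst h0
        rw [Nat.cast_zero, amp_zero, amp_zero]
      · exact h i m h0
    · rw [amp_neg, amp_neg]
      rcases Nat.eq_zero_or_pos m with h0 | h0
      · subst h0
        rw [Nat.cast_zero, amp_zero, amp_zero]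
      · rw [h i m h0]
  have hF := cmb_LF hA.lf hB.lf (c := -1) (by norm_num)
  have hH := cmb_HomF hA.hom hB.hom (-1)
  have hS : ∀ i, SymAt (cmb (FA v A) (FA v B) (-1)) (v i) (v (nxt hn hv i) - v i) := fun i =>
    cmb_SymAt (hA.sym hn hv i) (hB.sym hn hv i) (-1)
  have h1 : ∀ i k, cN (Mf (cmb (FA v A) (FA v B) (-1)) (v i) (ed hn hv i)) k = 0 := by
    intro i k
    rw [cN_sF hn hv hF hH hS i k, sF_cmb hn hv hA.lf hB.lf hA.hom hB.hom,
      sF_amp hn hv hA.meas hA.cone hA.inv hA.ch, sF_amp hn hv hB.meas hB.cone hB.inv hB.ch,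
      hall i k]
    push_cast
    ring
  have h2 : ∀ k : ℤ, Ar hn hv (fun i => cN (gam v (cmb (FA v A) (FA v B) (-1)) i) k) = 0 := by
    intro k
    refine Ar_line hn hv (U := 0) (fun i => ⟨0, ?_⟩)
    rw [← cN_Mf hn hv hF hH i k]
    have := h1 i k
    change cN (Mf _ (v i) (ed hn hv i)) k = _
    rw [this]
    simp
  have h3 := zero_of_area hn hv hF hH hS h2
  have h4 : ∀ᵐ p : ℂ × ℂ, p ∈ PP v ×ˢ BV → FA v A p.2 (cr p.2 p.1) = FA v B p.2 (cr p.2 p.1) := by
    have h0 : MeasurePreserving (Prod.swap : ℂ × ℂ → ℂ × ℂ)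
      ((volume : Measure ℂ).prod volume) ((volume : Measure ℂ).prod volume) :=
      Measure.measurePreserving_swap
    have h5 := h0.quasiMeasurePreserving.ae h3
    filter_upwards [h5] with p k1 hp
    have k2 := k1 ⟨hp.2, hp.1⟩
    unfold cmb at k2
    simp only [Prod.fst_swap, Prod.snd_swap] at k2
    linarith
  have h6 := ae_prod_FA (v := v) hA.meas hA.ch
  have h7 := ae_prod_FA (v := v) hB.meas hB.ch
  rw [← compl_mem_ae_iff]
  filter_upwards [h4, h6, h7] with p k1 k2 k3 hp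
  obtain ⟨hp1, hp2⟩ := hp
  apply hp1
  have e := k1 hp2
  rw [k2 hp2.1, k3 hp2.1] at e
  constructor
  · intro h
    by_contra h'
    rw [indicator_of_mem h, indicator_of_notMem h'] at e
    norm_num at e
  · intro h
    by_contra h'
    rw [indicator_of_mem h, indicator_of_notMem h'] at e
    norm_num at e

theorem ud_eq (hn : 3 ≤ n) (hv : ConvexIndependent ℝ v) (i : Fin n) :
    ud hn hv i = (v (nxt hn hv i) - v i) / (‖v (nxt hn hv i) - v i‖ : ℂ) :=
  rho_sarg_eq (v_sub_ne hv (nxt_side hn hv i).ne)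

theorem ud_angle (hn : 3 ≤ n) (hv : ConvexIndependent ℝ v) (i : Fin n) (k : ℕ) :
    ((ud hn hv (nxt hn hv i) * conj (ud hn hv i)) ^ k).im = (-1) ^ (k + 1) *
      Real.sin (k * EuclideanGeometry.angle (v i) (v (nxt hn hv i))
        (v (nxt hn hv (nxt hn hv i)))) := by
  apply pow_im_angle
  rw [ud_eq, ud_eq]
  apply unit_angle
  have h1 := nxt_side hn hv i
  have h2 := nxt_side hn hv (nxt hn hv i)
  have h3 : nxt hn hv (nxt hn hv i) ≠ i := by
    intro h
    rw [h] at h2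
    exact not_both_sides hn h1 h2
  have h4 := h1.2 (nxt hn hv (nxt hn hv i)) h3 h2.1.symm
  have h5 : cr (v (nxt hn hv i) - v i) (v (nxt hn hv (nxt hn hv i)) - v (nxt hn hv i)) =
      cr (v (nxt hn hv i) - v i) (v (nxt hn hv (nxt hn hv i)) - v i) := by
    unfold cr
    simp only [sub_re, sub_im]
    ring
  rw [h5]
  exact h4

end Pool.Agent.Lib.BilE
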