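import Pool.Agent.Lib.MP_7bc51d_an_spec.Comb
import Pool.Agent.Lib.MP_7bc51d_an_mode.Fourier

set_option autoImplicit false

/-!
The side amplitudes are sine coefficients of the lit fractions.
-/

namespace Pool.Agent.Lib.BilE

open Complex MeasureTheory Set Filter AddCircle
open scoped ComplexConjugate Topology ENNReal NNReal
open Pool.Agent.Lib.Bil Pool.Agent.Lib.BilM Pool.Agent.Lib.BilS

variable {n : ℕ} {v : Fin n → ℂ}

/-- The lit fraction. -/
noncomputable def litR (v : Fin n → ℂ) (A : Set (ℂ × ℂ)) (i j : Fin n) (w : ℂ) : ℝ :=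
  (volume (lit v A i j w)).toReal

theorem tendsto_mul_nhdsGT {c : ℝ} (hc : 0 < c) :
    Tendsto (fun s : ℝ => s * c) (𝓝[>] 0) (𝓝[>] 0) := by
  rw [tendsto_nhdsWithin_iff]
  constructor
  · have h : Tendsto (fun s : ℝ => s * c) (𝓝 0) (𝓝 (0 * c)) := tendsto_id.mul_const c
    rw [zero_mul] at h
    exact h.mono_left nhdsWithin_le_nhds
  · filter_upwards [self_mem_nhdsWithin] with s hs
    exact mul_pos hs hc

theorem lit_smul {A : Set (ℂ × ℂ)}
    (hcone : ∀ x w : ℂ, ∀ c : ℝ, 0 < c → ((x, w) ∈ A ↔ (x, (c : ℂ) * w) ∈ A)) (i j : Fin n)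
    {c : ℝ} (hc : 0 < c) (w : ℂ) : lit v A i j ((c : ℂ) * w) = lit v A i j w := by
  have key : ∀ (c : ℝ), 0 < c → ∀ w, lit v A i j w ⊆ lit v A i j ((c : ℂ) * w) := by
    intro c hc w t ht
    refine ⟨ht.1, ?_⟩
    have h1 := (tendsto_mul_nhdsGT hc).eventually ht.2
    filter_upwards [h1] with s hs
    rw [hcone _ _ c hc] at hs
    push_cast at hs
    rwa [mul_assoc] at hs
  apply subset_antisymm
  · have h := key c⁻¹ (inv_pos.2 hc) ((c : ℂ) * w)
    have e : ((c⁻¹ : ℝ) : ℂ) * ((c : ℂ) * w) = w := by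
      have : (c : ℂ) ≠ 0 := by exact_mod_cast hc.ne'
      push_cast
      field_simp
    rwa [e] at h
  · exact key c hc w

theorem litR_smul {A : Set (ℂ × ℂ)}
    (hcone : ∀ x w : ℂ, ∀ c : ℝ, 0 < c → ((x, w) ∈ A ↔ (x, (c : ℂ) * w) ∈ A)) (i j : Fin n)
    {c : ℝ} (hc : 0 < c) (w : ℂ) : litR v A i j ((c : ℂ) * w) = litR v A i j w := by
  unfold litR
  rw [lit_smul hcone i j hc]

theorem rl_integral_C {e : ℂ} (he : e ≠ 0) (g : ℂ → ℂ) :
    ∫ w in BV, g (rl e w) = ∫ w in BV, g w :=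
  (mp_rl_BV he).integral_comp (rl_emb he) g

/-- Half plane indicator. -/
noncomputable def hp (e w : ℂ) : ℝ := if 0 < cr e w then 1 else 0

theorem hp_meas (e : ℂ) : Measurable (hp e) := by
  unfold hp
  apply Measurable.ite
  · have : Measurable (fun w : ℂ => cr e w) := (continuous_cr_right e).measurable
    exact measurableSet_lt measurable_const this
  · exact measurable_const
  · exact measurable_const

theorem hp_abs (e w : ℂ) : |hp e w| ≤ 1 := by
  unfold hp; split_ifs <;> simp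

theorem ek_rl {e : ℂ} (he : e ≠ 0) (k : ℤ) (w : ℂ) :
    ek k (rl e w) = fourier k (sarg e + sarg e) * ek (-k) w := by
  by_cases hw : w = 0
  · subst hw
    have : rl e 0 = 0 := by unfold rl; simp
    rw [this]
    simp [ek]
  · have hwn : (0 : ℝ) < ‖w‖ := norm_pos_iff.2 hw
    have h1 : w = (‖w‖ : ℂ) * rho (sarg w) := (rho_sarg w).symm
    have h2 : rl e w = (‖w‖ : ℂ) * rho (sarg e + sarg e - sarg w) := by
      conv_lhs => rw [h1]
      rw [rl_smul, rl_rho he]
    have h3 : sarg (rl e w) = sarg e + sarg e - sarg w := by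
      apply rho_inj
      have h4 := rho_sarg (rl e w)
      rw [norm_rl he] at h4
      have h5 : (‖w‖ : ℂ) ≠ 0 := by exact_mod_cast hwn.ne'
      exact mul_left_cancel₀ h5 (h4.trans h2)
    unfold ek
    rw [norm_rl he, h3, sub_eq_add_neg, fourier_add_pt k (sarg e + sarg e)]
    have h6 : (fourier k (-sarg w) : ℂ) = fourier (-k) (sarg w) := by
      rw [fourier_apply, fourier_apply, smul_neg, neg_smul]
    rw [h6]
    ring

theorem intC_ball {g : ℂ → ℂ} (hg : Measurable g) {C : ℝ} (hb : ∀ w ∈ BV, ‖g w‖ ≤ C) :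
    IntegrableOn g BV := by
  have h1 : IntegrableOn (fun _ : ℂ => C) BV :=
    integrableOn_const (measure_ball_lt_top.ne)
  refine Integrable.mono' h1 hg.aestronglyMeasurable ?_
  rw [ae_restrict_iff' measurableSet_ball]
  exact Eventually.of_forall hb

/-- Reduction to the half plane. -/
theorem half_plane {M : ℂ → ℝ} (hM : Hom1 M) {e : ℂ} (he : e ≠ 0)
    (hs : ∀ᵐ w, M (rl e w) = - M w) (k : ℤ) :
    ∫ w in BV, ((M w : ℝ) : ℂ) * ek k w =
      ∫ w in BV, ((hp e w * M w : ℝ) : ℂ) *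
        (ek k w - fourier k (sarg e + sarg e) * ek (-k) w) := by
  obtain ⟨C, hC, hb⟩ := hM.bd
  have hbd : ∀ w ∈ BV, |M w| ≤ C := fun w hw => by
    have := norm_lt_of_BV hw
    exact (hb w).trans (by nlinarith [norm_nonneg w])
  have i1 : IntegrableOn (fun w => ((hp e w * M w : ℝ) : ℂ) * ek k w) BV := by
    refine intC_ball ((Complex.measurable_ofReal.comp ((hp_meas e).mul hM.meas)).mul
      (measurable_ek k)) (C := 1 * C * 1) (fun w hw => ?_)
    rw [norm_mul, norm_ek, norm_real, norm_mul, Real.norm_eq_abs, Real.norm_eq_abs]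
    have h1 := hp_abs e w
    have h2 := hbd w hw
    have h3 := (norm_lt_of_BV hw).le
    gcongr
  have i2 : IntegrableOn (fun w => ((hp e (rl e w) * M w : ℝ) : ℂ) * ek k w) BV := by
    refine intC_ball ((Complex.measurable_ofReal.comp
      (((hp_meas e).comp (continuous_rl e).measurable).mul hM.meas)).mul
      (measurable_ek k)) (C := 1 * C * 1) (fun w hw => ?_)
    rw [norm_mul, norm_ek, norm_real, norm_mul, Real.norm_eq_abs, Real.norm_eq_abs]
    have h1 := hp_abs e (rl e w)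
    have h2 := hbd w hw
    have h3 := (norm_lt_of_BV hw).le
    gcongr
  have i3 : IntegrableOn (fun w => ((hp e w * M w : ℝ) : ℂ) *
      (fourier k (sarg e + sarg e) * ek (-k) w)) BV := by
    refine intC_ball ((Complex.measurable_ofReal.comp ((hp_meas e).mul hM.meas)).mul
      ((measurable_ek (-k)).const_mul _)) (C := 1 * C * 1) (fun w hw => ?_)
    rw [norm_mul, norm_mul, norm_fourier_pt, one_mul, norm_ek, norm_real, norm_mul,
      Real.norm_eq_abs, Real.norm_eq_abs]
    have h1 := hp_abs e w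
    have h2 := hbd w hw
    have h3 := (norm_lt_of_BV hw).le
    gcongr
  have h0 : ∀ᵐ w : ℂ, hp e w + hp e (rl e w) = 1 := by
    filter_upwards [ae_not_mem_line e] with w hw
    have h1 : cr e w ≠ 0 := by
      intro h0
      apply hw
      obtain ⟨t, ht⟩ := (cr_eq_zero_iff he).1 h0
      rw [Submodule.mem_span_singleton]
      exact ⟨t, by rw [real_smul]; exact ht.symm⟩
    have h2 : cr e (rl e w) = - cr e w := by
      have := cr_rl he e w
      rwa [rl_self he] at this
    unfold hp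
    rw [h2]
    rcases lt_or_gt_of_ne h1 with h | h
    · rw [if_neg (by linarith), if_pos (by linarith)]; norm_num
    · rw [if_pos h, if_neg (by linarith)]; norm_num
  have h1 : ∫ w in BV, ((M w : ℝ) : ℂ) * ek k w =
      (∫ w in BV, ((hp e w * M w : ℝ) : ℂ) * ek k w) +
        ∫ w in BV, ((hp e (rl e w) * M w : ℝ) : ℂ) * ek k w := by
    rw [← integral_add i1 i2]
    apply integral_congr_ae
    apply ae_restrict_of_ae
    filter_upwards [h0] with w hw
    rw [← add_mul, ← ofReal_add, ← add_mul, hw, one_mul]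
  have h2 : ∫ w in BV, ((hp e (rl e w) * M w : ℝ) : ℂ) * ek k w =
      - ∫ w in BV, ((hp e w * M w : ℝ) : ℂ) * (fourier k (sarg e + sarg e) * ek (-k) w) := by
    rw [← rl_integral_C he (fun w => ((hp e (rl e w) * M w : ℝ) : ℂ) * ek k w), ← integral_neg]
    apply integral_congr_ae
    apply ae_restrict_of_ae
    filter_upwards [hs] with w hw
    rw [rl_rl he, hw, ek_rl he]
    push_cast
    ring
  rw [h1, h2, ← sub_eq_add_neg, ← integral_sub i1 i3]
  congr 1
  funext w
  ring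

theorem kap_eq : kap = (Real.pi : ℂ) / 2 := by
  have h := BilH.polar_homC 2 (g := fun w : ℂ => (‖w‖ : ℂ) ^ 2) (fun r hr w => by
    rw [norm_mul, norm_real, Real.norm_eq_abs, abs_of_pos hr]; push_cast; ring)
  unfold kap
  rw [h]
  have h1 : ∀ θ : ℝ, ((‖ut θ‖ : ℝ) : ℂ) ^ 2 = 1 := by
    intro θ
    have := BilH.ut_norm θ
    have h2 : ((‖ut θ‖ : ℝ) : ℂ) ^ 2 = ut θ * conj (ut θ) := by
      rw [Complex.mul_conj, Complex.normSq_eq_norm_sq]; push_cast; rfl
    rw [h2, this]
  simp_rw [h1]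
  rw [setIntegral_const]
  simp only [Measure.real, Real.volume_Ioo]
  rw [ENNReal.toReal_ofReal (by have := Real.pi_pos; linarith)]
  rw [real_smul]
  push_cast
  ring

theorem ut_rho (θ : ℝ) : ut θ = rho (θ : TT) := by
  rw [rho_coe, BilH.ut_exp]

theorem ek_ut (k : ℤ) (θ : ℝ) : ek k (ut θ) = fourier k (θ : TT) := by
  unfold ek
  have h1 : ‖ut θ‖ = 1 := by rw [ut_rho]; exact norm_rho _
  have h2 : sarg (ut θ) = (θ : TT) := by
    apply rho_inj
    have h3 := rho_sarg (ut θ)
    rw [h1, ofReal_one, one_mul] at h3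
    rw [h3, ut_rho]
  rw [h1, h2, ofReal_one, one_mul]

theorem fourier_sub_neg (k : ℤ) (θ : ℝ) :
    (fourier k (θ : TT) : ℂ) - fourier (-k) (θ : TT) = 2 * I * ((Real.sin (k * θ) : ℝ) : ℂ) := by
  have h1 : ∀ m : ℤ, (fourier m (θ : TT) : ℂ) = cexp ((m * θ : ℂ) * I) := by
    intro m
    rw [fourier_rho, rho_coe, ← Complex.exp_int_mul]
    congr 1
    ring
  rw [h1, h1]
  have h2 : (((-k : ℤ) : ℂ) * θ) * I = -(((k : ℂ) * θ) * I) := by push_cast; ring
  rw [h2, Complex.ofReal_sin, Complex.sin]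
  push_cast
  have : I ^ 2 = -1 := I_sq
  field_simp
  ring_nf
  rw [this]
  ring

/-- The sine coefficient of the flux through a side. -/
noncomputable def amp (v : Fin n → ℂ) (A : Set (ℂ × ℂ)) (i j : Fin n) (k : ℤ) : ℝ :=
  (1 / Real.pi) * ∫ θ in Ioo 0 Real.pi,
    ‖v j - v i‖ * Real.sin θ * litR v A i j (ut θ * (v j - v i)) * Real.sin (k * θ)

theorem cN_amp (hn : 3 ≤ n) (hv : ConvexIndependent ℝ v) {A : Set (ℂ × ℂ)}
    (hA : MeasurableSet A)
    (hcone : ∀ x w : ℂ, ∀ c : ℝ, 0 < c → ((x, w) ∈ A ↔ (x, (c : ℂ) * w) ∈ A))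
    (hI : Inv v A) (hch : ∀ᵐ w, ChordAt v A w) (i : Fin n) (k : ℤ) :
    cN (Mf (FA v A) (v i) (ed hn hv i)) k =
      I * (amp v A i (nxt hn hv i) k : ℝ) * fourier (-k) (sarg (ed hn hv i)) := by
  set j := nxt hn hv i with hj
  have hij : IsSide v i j := nxt_side hn hv i
  set e := ed hn hv i with hedef
  have hee : e = v j - v i := rfl
  have he : e ≠ 0 := v_sub_ne hv hij.1
  have hF := LF_FA (v := v) hA
  have hs : SymAt (FA v A) (v i) e := symAt_FA hn hv hI hch hij
  have hM : Hom1 (Mf (FA v A) (v i) e) := Mf_hom1 hF (FA_hom hcone) _ _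
  set s := sarg e with hsdef
  have hu : rho s = rho s := rfl
  have hce : conj e * rho s = (‖e‖ : ℂ) := by
    have h1 := rho_sarg e
    have h2 : conj (rho s) * rho s = 1 := conj_mul_self' (norm_rho _)
    calc conj e * rho s = conj ((‖e‖ : ℂ) * rho s) * rho s := by rw [h1]
      _ = (‖e‖ : ℂ) * (conj (rho s) * rho s) := by rw [map_mul, conj_ofReal]; ring
      _ = _ := by rw [h2, mul_one]
  have hcr : ∀ w, cr e (rho s * w) = ‖e‖ * w.im := by
    intro w
    rw [cr_eq_im, ← mul_assoc, hce, im_ofReal_mul]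
  have hen : 0 < ‖e‖ := norm_pos_iff.2 he
  -- the boundary values
  have h1 := ball_int hM (-k)
  rw [neg_neg, half_plane hM he (cr_neg_rl he hs) (-k), neg_neg] at h1
  have h2 : ∫ w in BV, ((hp e w * Mf (FA v A) (v i) e w : ℝ) : ℂ) *
        (ek (-k) w - fourier (-k) (s + s) * ek k w) =
      ∫ w in BV, ((hp e w * (-(cr e w) * litR v A i j w) : ℝ) : ℂ) *
        (ek (-k) w - fourier (-k) (s + s) * ek k w) := by
    apply integral_congr_ae
    apply ae_restrict_of_ae
    filter_upwards [frac_eq hn hv hA hch hij] with w hw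
    congr 2
    unfold hp
    by_cases hpos : 0 < cr e w
    · rw [if_pos hpos]
      have h3 := hw hpos
      unfold Mf litR
      rw [hee, h3, cr_swap w (v j - v i)]
      ring
    · rw [if_neg hpos, zero_mul, zero_mul]
  rw [h2, ← rot_integral_C (norm_rho s)] at h1
  have h3 : ∀ w : ℂ, ((hp e (rho s * w) * (-(cr e (rho s * w)) * litR v A i j (rho s * w)) : ℝ) : ℂ)
      * (ek (-k) (rho s * w) - fourier (-k) (s + s) * ek k (rho s * w)) =
      fourier (-k) s * (((hp e (rho s * w) * (-(‖e‖ * w.im) * litR v A i j (rho s * w)) : ℝ) : ℂ) *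
        (ek (-k) w - ek k w)) := by
    intro w
    rw [hcr, ek_rot, ek_rot, fourier_add_pt (-k) s s]
    have h4 := fourier_mul_neg k s
    calc _ = ((hp e (rho s * w) * (-(‖e‖ * w.im) * litR v A i j (rho s * w)) : ℝ) : ℂ) *
          (fourier (-k) s * ek (-k) w - fourier (-k) s * (fourier k s * fourier (-k) s) *
            ek k w) := by ring
      _ = _ := by rw [h4]; ring
  simp_rw [h3] at h1
  rw [integral_const_mul] at h1
  have h5 := BilH.polar_homC 2 (g := fun w : ℂ =>
    ((hp e (rho s * w) * (-(‖e‖ * w.im) * litR v A i j (rho s * w)) : ℝ) : ℂ) *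
        (ek (-k) w - ek k w)) (fun r hr w => by
      have g1 : rho s * ((r : ℂ) * w) = (r : ℂ) * (rho s * w) := by ring
      have g2 : hp e ((r : ℂ) * (rho s * w)) = hp e (rho s * w) := by
        unfold hp
        rw [cr_smul_right]
        by_cases h : 0 < cr e (rho s * w)
        · rw [if_pos h, if_pos (mul_pos hr h)]
        · rw [if_neg h, if_neg (fun h' => h ((mul_pos_iff_of_pos_left hr).1 h'))]
      have g3 : ∀ m : ℤ, ek m ((r : ℂ) * w) = (r : ℂ) * ek m w := by
        intro m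
        unfold ek sarg
        rw [norm_mul, norm_real, Real.norm_eq_abs, abs_of_pos hr, Complex.arg_real_mul _ hr]
        push_cast
        ring
      rw [g1, g2, litR_smul hcone i j hr, g3, g3, im_ofReal_mul]
      push_cast
      ring)
  rw [h5] at h1
  have h6 : ∫ θ in Ioo (-Real.pi) Real.pi,
      (((hp e (rho s * ut θ) * (-(‖e‖ * (ut θ).im) * litR v A i j (rho s * ut θ)) : ℝ) : ℂ) *
        (ek (-k) (ut θ) - ek k (ut θ))) =
      2 * I * ((∫ θ in Ioo 0 Real.pi,
        ‖v j - v i‖ * Real.sin θ * litR v A i j (ut θ * (v j - v i)) * Real.sin (k * θ) : ℝ) : ℂ) := by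
    have g0 : Ioo (0 : ℝ) Real.pi = Ioo (-Real.pi) Real.pi ∩ Ioi 0 := by
      ext x
      simp only [mem_Ioo, mem_inter_iff, mem_Ioi]
      constructor
      · rintro ⟨h, h'⟩; exact ⟨⟨by linarith, h'⟩, h⟩
      · rintro ⟨⟨_, h'⟩, h⟩; exact ⟨h, h'⟩
    rw [← integral_complex_ofReal, g0, ← setIntegral_indicator measurableSet_Ioi,
      ← integral_const_mul]
    apply setIntegral_congr_fun measurableSet_Ioo
    intro θ hθ
    simp only
    have g1 : cr e (rho s * ut θ) = ‖e‖ * Real.sin θ := by rw [hcr, ut_im]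
    have g2 : (ek (-k) (ut θ) - ek k (ut θ)) = -(2 * I * ((Real.sin (k * θ) : ℝ) : ℂ)) := by
      rw [ek_ut, ek_ut, ← fourier_sub_neg k θ]; ring
    by_cases hpos : 0 < θ
    · rw [indicator_of_mem (show θ ∈ Ioi (0 : ℝ) from hpos)]
      have hsin := Real.sin_pos_of_pos_of_lt_pi hpos hθ.2
      have g3 : hp e (rho s * ut θ) = 1 := by
        unfold hp
        rw [g1, if_pos (mul_pos hen hsin)]
      have g4 : litR v A i j (rho s * ut θ) = litR v A i j (ut θ * (v j - v i)) := by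
        rw [← litR_smul hcone i j hen (rho s * ut θ)]
        congr 1
        rw [← hee]
        conv_rhs => rw [← rho_sarg e]
        ring
      rw [g2, g3, g4, ut_im, ← hee]
      push_cast
      ring
    · rw [indicator_of_notMem (show θ ∉ Ioi (0 : ℝ) from hpos)]
      have hsin : Real.sin θ ≤ 0 := by
        apply Real.sin_nonpos_of_nonpos_of_neg_pi_le (not_lt.1 hpos) hθ.1.le
      have g3 : hp e (rho s * ut θ) = 0 := by
        unfold hp
        rw [g1, if_neg (by nlinarith)]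
      rw [g3]
      simp
  rw [h6, kap_eq] at h1
  have hpi : (Real.pi : ℂ) ≠ 0 := by exact_mod_cast Real.pi_ne_zero
  unfold amp
  have h7 : cN (Mf (FA v A) (v i) e) k = (2 / (Real.pi : ℂ)) *
      ((Real.pi : ℂ) / 2 * cN (Mf (FA v A) (v i) e) k) := by field_simp
  rw [h7, ← h1]
  push_cast
  field_simp
  ring

theorem sF_amp (hn : 3 ≤ n) (hv : ConvexIndependent ℝ v) {A : Set (ℂ × ℂ)}
    (hA : MeasurableSet A)
    (hcone : ∀ x w : ℂ, ∀ c : ℝ, 0 < c → ((x, w) ∈ A ↔ (x, (c : ℂ) * w) ∈ A))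
    (hI : Inv v A) (hch : ∀ᵐ w, ChordAt v A w) (i : Fin n) (k : ℤ) :
    sF hn hv (FA v A) i k = amp v A i (nxt hn hv i) k := by
  unfold sF
  rw [cN_amp hn hv hA hcone hI hch i k]
  have h1 : (fourier (-k) (sarg (ed hn hv i)) : ℂ) = (ud hn hv i ^ k)⁻¹ := by
    rw [fourier_rho, zpow_neg]
    rfl
  have h2 : ud hn hv i ^ k ≠ 0 := zpow_ne_zero _ (rho_ne _)
  rw [h1]
  have : I * (amp v A i (nxt hn hv i) k : ℂ) * (ud hn hv i ^ k)⁻¹ * (-I) * ud hn hv i ^ k =
      (amp v A i (nxt hn hv i) k : ℂ) := by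
    field_simp
    rw [I_sq]
    ring
  rw [this, ofReal_re]

end Pool.Agent.Lib.BilE
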