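import Pool.Agent.Lib.MP_7bc51d_an_smooth.Case3

set_option autoImplicit false

/-!
Time reversal: if all sides but one are pairwise parallel or orthogonal then every invariant
function of lines is invariant under time reversal.
-/

namespace Pool.Agent.Lib.BilE

open Complex MeasureTheory Set Filter AddCircle
open scoped ComplexConjugate Topology ENNReal NNReal
open Pool.Agent.Lib.Bil Pool.Agent.Lib.BilM Pool.Agent.Lib.BilS

variable {n : ℕ} {v : Fin n → ℂ}

/-- A property that propagates along the sides holds everywhere. -/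
theorem nxt_ind (hn : 3 ≤ n) (hv : ConvexIndependent ℝ v) {P : Fin n → Prop} (a : Fin n)
    (h0 : P a) (hs : ∀ i, P i → P (nxt hn hv i)) : ∀ i, P i := by
  intro i
  obtain ⟨m, hm⟩ := nxt_orbit hn hv a i
  rw [← hm]
  clear hm
  induction m with
  | zero => exact h0
  | succ k ih => rw [Function.iterate_succ_apply']; exact hs _ ih

/-- A closed polygon whose edges are real multiples of one vector has area zero. -/
theorem Ar_line (hn : 3 ≤ n) (hv : ConvexIndependent ℝ v) {γ : Fin n → ℂ} {U : ℂ}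
    (h : ∀ i, ∃ r : ℝ, γ (nxt hn hv i) - γ i = r * U) : Ar hn hv γ = 0 := by
  obtain ⟨r, hr⟩ := Classical.axiomOfChoice h
  have hi0 : Nonempty (Fin n) := ⟨⟨0, by omega⟩⟩
  obtain ⟨a⟩ := hi0
  have hR : ∀ i, ∃ R : ℝ, γ i - γ a = R * U := by
    refine nxt_ind hn hv (P := fun i => ∃ R : ℝ, γ i - γ a = R * U) a ?_ ?_
    · exact ⟨0, by simp⟩
    · rintro i ⟨R, hR⟩
      refine ⟨R + r i, ?_⟩
      have := hr i
      push_cast
      linear_combination hR + this
  obtain ⟨R, hR⟩ := Classical.axiomOfChoice hR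
  rw [← Ar_shift hn hv γ (γ a)]
  unfold Ar
  have h1 : ∀ i, conj (γ (nxt hn hv i) - γ a - (γ i - γ a)) *
      ((γ i - γ a) + (γ (nxt hn hv i) - γ a)) =
      (conj U * U) * ((R (nxt hn hv i) : ℂ) ^ 2) - (conj U * U) * ((R i : ℂ) ^ 2) := by
    intro i
    rw [hR i, hR (nxt hn hv i)]
    simp only [map_sub, map_mul, conj_ofReal]
    ring
  simp_rw [h1]
  rw [Finset.sum_sub_distrib, sum_nxt_C hn hv (fun i => (conj U * U) * ((R i : ℂ) ^ 2)), sub_self]

/-- One edge is determined by the others. -/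
theorem Ar_line' (hn : 3 ≤ n) (hv : ConvexIndependent ℝ v) {γ : Fin n → ℂ} {U : ℂ} (a : Fin n)
    (h : ∀ i, i ≠ a → ∃ r : ℝ, γ (nxt hn hv i) - γ i = r * U) : Ar hn hv γ = 0 := by
  apply Ar_line hn hv (U := U)
  intro i
  by_cases hi : i = a
  · subst hi
    have h0 : ∑ j, (γ (nxt hn hv j) - γ j) = 0 := by
      rw [Finset.sum_sub_distrib, sum_nxt_C hn hv γ, sub_self]
    have h' : ∀ j, ∃ r : ℝ, j ≠ i → γ (nxt hn hv j) - γ j = r * U := by
      intro j
      by_cases hj : j = i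
      · exact ⟨0, fun h => absurd hj h⟩
      · obtain ⟨r, hr⟩ := h j hj
        exact ⟨r, fun _ => hr⟩
    obtain ⟨r, hr⟩ := Classical.axiomOfChoice h'
    refine ⟨- ∑ j ∈ Finset.univ.erase i, r j, ?_⟩
    rw [← Finset.add_sum_erase _ _ (Finset.mem_univ i)] at h0
    have h1 : ∑ j ∈ Finset.univ.erase i, (γ (nxt hn hv j) - γ j) =
        ∑ j ∈ Finset.univ.erase i, (r j : ℂ) * U :=
      Finset.sum_congr rfl (fun j hj => hr j (Finset.ne_of_mem_erase hj))
    rw [h1, ← Finset.sum_mul] at h0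
    push_cast
    linear_combination h0
  · exact h i hi

/-- A continuous function on the circle with vanishing Fourier coefficients is zero. -/
theorem zero_of_coeff {B : C(TT, ℂ)} (h : ∀ k : ℤ, fourierCoeff B k = 0) (t : TT) : B t = 0 := by
  have h1 : Summable (fourierCoeff B) := by
    have : fourierCoeff B = fun _ => 0 := funext h
    rw [this]
    exact summable_zero
  have h2 := has_pointwise_sum_fourier_series_of_summable h1 t
  have h3 : (fun i => fourierCoeff B i • (fourier i t : ℂ)) = fun _ => 0 := by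
    funext i; rw [h i, zero_smul]
  rw [h3] at h2
  exact h2.unique hasSum_zero

/-- If all areas vanish then the function vanishes. -/
theorem zero_of_area (hn : 3 ≤ n) (hv : ConvexIndependent ℝ v) {F : ℂ → ℝ → ℝ} (hF : LF F)
    (hhom : HomF F) (hs : ∀ i, SymAt F (v i) (v (nxt hn hv i) - v i))
    (h : ∀ k : ℤ, Ar hn hv (fun i => cN (gam v F i) k) = 0) :
    ∀ᵐ p : ℂ × ℂ, p ∈ BV ×ˢ PP v → F p.1 (cr p.1 p.2) = 0 := by
  set B : C(TT, ℂ) := ⟨fun t => (((- (rho t).im * Cr v F t : ℝ)) : ℂ), by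
    have h1 : Continuous (fun t : TT => - (rho t).im * Cr v F t) :=
      ((Complex.continuous_im.comp continuous_rho).neg).mul (Cr_cont hF)
    exact Complex.continuous_ofReal.comp h1⟩ with hB
  have h0 : ∀ t : TT, - (rho t).im * Cr v F t = 0 := by
    intro t
    have h1 : B t = 0 := by
      apply zero_of_coeff
      intro k
      have := coeff_area hn hv hF hhom hs k
      rw [h k, mul_zero] at this
      exact this
    have h2 : (((- (rho t).im * Cr v F t : ℝ)) : ℂ) = 0 := h1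
    exact_mod_cast h2
  have h1 : Cr v F ((0 : ℝ) : TT) = 0 := by
    have hc : Continuous (fun x : ℝ => Cr v F (x : TT)) :=
      (Cr_cont hF).comp (AddCircle.continuous_mk' _)
    have ht : Tendsto (fun x : ℝ => Cr v F (x : TT)) (𝓝[>] 0) (𝓝 (Cr v F ((0 : ℝ) : TT))) :=
      (hc.tendsto 0).mono_left nhdsWithin_le_nhds
    have ht2 : Tendsto (fun x : ℝ => Cr v F (x : TT)) (𝓝[>] 0) (𝓝 0) := by
      refine (tendsto_const_nhds (x := (0 : ℝ))).congr' ?_
      have h2 : ∀ᶠ x : ℝ in 𝓝[>] 0, x ∈ Ioo (0 : ℝ) Real.pi := Ioo_mem_nhdsGT Real.pi_pos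
      filter_upwards [h2] with x hx
      have h3 := h0 (x : TT)
      rw [rho_coe_im] at h3
      have h4 := Real.sin_pos_of_pos_of_lt_pi hx.1 hx.2
      rcases mul_eq_zero.1 h3 with h5 | h5
      · exfalso; linarith
      · exact h5.symm
    exact tendsto_nhds_unique ht ht2
  rw [Cr_zero] at h1
  have hG := Gw_memLp (v := v) hF
  have h2 : ∫ p : ℂ × ℂ, (Gw v F p) ^ 2 = 0 := by
    rw [← h1]; congr 1; funext p; ring
  rw [integral_eq_zero_iff_of_nonneg (fun p => sq_nonneg _) hG.integrable_sq] at h2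
  have h3 : ∀ᵐ p : ℂ × ℂ, p.1 ≠ 0 := by
    have : ∀ᵐ w : ℂ, w ≠ 0 := by rw [ae_iff]; simp
    exact Measure.quasiMeasurePreserving_fst.ae this
  filter_upwards [h2, h3] with p k1 k2 hp
  simp only [Pi.zero_apply] at k1
  have k3 : Gw v F p = 0 := pow_eq_zero_iff two_ne_zero |>.1 k1
  unfold Gw at k3
  rw [indicator_of_mem hp] at k3
  rcases mul_eq_zero.1 k3 with h | h
  · exact absurd (norm_eq_zero.1 h) k2
  · exact h

/-- The time reversal of a line function. -/
def rev (F : ℂ → ℝ → ℝ) (w : ℂ) (Q : ℝ) : ℝ := F (-w) (-Q)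

/-- The antisymmetric part. -/
noncomputable def asym (F : ℂ → ℝ → ℝ) (w : ℂ) (Q : ℝ) : ℝ := (F w Q - F (-w) (-Q)) / 2

theorem asym_LF {F : ℂ → ℝ → ℝ} (hF : LF F) : LF (asym F) := by
  constructor
  · have h1 : Measurable (fun p : ℂ × ℝ => F (-p.1) (-p.2)) :=
      hF.meas.comp (measurable_fst.neg.prodMk measurable_snd.neg)
    exact (hF.meas.sub h1).div_const 2
  · intro w Q
    have h1 := abs_le.1 (hF.bd w Q)
    have h2 := abs_le.1 (hF.bd (-w) (-Q))
    unfold asym
    rw [abs_le]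
    constructor <;> linarith [h1.1, h1.2, h2.1, h2.2]

theorem asym_HomF {F : ℂ → ℝ → ℝ} (hF : HomF F) : HomF (asym F) := by
  intro r hr w Q
  unfold asym
  rw [hF r hr, ← mul_neg, ← mul_neg, hF r hr]

theorem ae_neg {P : ℂ → Prop} (h : ∀ᵐ w : ℂ, P w) : ∀ᵐ w : ℂ, P (-w) :=
  (Measure.measurePreserving_neg (volume : Measure ℂ)).quasiMeasurePreserving.ae h

theorem rl_neg (e w : ℂ) : rl e (-w) = - rl e w := by
  unfold rl; rw [map_neg]; ring

theorem cr_neg_left (w x : ℂ) : cr (-w) x = - cr w x := by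
  unfold cr; simp only [neg_re, neg_im]; ring

theorem asym_SymAt {F : ℂ → ℝ → ℝ} {a e : ℂ} (hs : SymAt F a e) : SymAt (asym F) a e := by
  filter_upwards [hs, ae_neg hs] with w h1 h2
  filter_upwards [h1, h2] with τ k1 k2 hτ
  have k3 := k2 hτ
  rw [rl_neg, cr_neg_left, cr_neg_left] at k3
  unfold asym
  rw [k1 hτ, k3]

theorem Mf_asym_even {F : ℂ → ℝ → ℝ} (a e w : ℂ) :
    Mf (asym F) a e (-w) = Mf (asym F) a e w := by
  have h : Sm (asym F) a e 1 (-w) = - Sm (asym F) a e 1 w := by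
    unfold Sm
    rw [← intervalIntegral.integral_neg]
    apply intervalIntegral.integral_congr
    intro τ _
    simp only [asym, cr_neg_left, neg_neg]
    ring
  unfold Mf
  rw [h, cr_neg_left]
  ring

theorem rho_pi : rho ((Real.pi : ℝ) : TT) = -1 := by
  rw [rho_coe, Complex.exp_pi_mul_I]

theorem fourier_pi (k : ℤ) : (fourier k ((Real.pi : ℝ) : TT) : ℂ) = (-1) ^ k := by
  have h : (fourier k ((Real.pi : ℝ) : TT) : ℂ) = (rho ((Real.pi : ℝ) : TT)) ^ k := by
    rw [fourier_apply, rho, toCircle_zsmul, Circle.coe_zpow]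
  rw [h, rho_pi]

/-- Even homogeneous functions have no odd Fourier coefficients. -/
theorem cN_even {M : ℂ → ℝ} (h : ∀ w, M (-w) = M w) {k : ℤ} (hk : Odd k) : cN M k = 0 := by
  have h1 := integral_add_right_eq_self (μ := (haarAddCircle : Measure TT))
    (fun t : TT => (fourier (-k) t : ℂ) * ((M (rho t) : ℝ) : ℂ)) ((Real.pi : ℝ) : TT)
  have h2 : ∀ t : TT, (fourier (-k) (t + ((Real.pi : ℝ) : TT)) : ℂ) *
      ((M (rho (t + ((Real.pi : ℝ) : TT))) : ℝ) : ℂ) =
      - ((fourier (-k) t : ℂ) * ((M (rho t) : ℝ) : ℂ)) := by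
    intro t
    rw [fourier_add_pt, rho_add, rho_pi, mul_neg_one, h, fourier_pi,
      (Odd.neg hk).neg_one_zpow]
    ring
  simp_rw [h2] at h1
  rw [integral_neg] at h1
  have h3 : cN M k = ∫ t : TT, (fourier (-k) t : ℂ) * ((M (rho t) : ℝ) : ℂ) ∂haarAddCircle := rfl
  rw [← h3] at h1
  have h4 : (2 : ℂ) * cN M k = 0 := by linear_combination -h1
  exact (mul_eq_zero.1 h4).resolve_left two_ne_zero

end Pool.Agent.Lib.BilE
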