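import Pool.Agent.Lib.MP_7bc51d_an_spec.TR

set_option autoImplicit false

/-!
Time reversal, second part.
-/

namespace Pool.Agent.Lib.BilE

open Complex MeasureTheory Set Filter AddCircle
open scoped ComplexConjugate Topology ENNReal NNReal
open Pool.Agent.Lib.Bil Pool.Agent.Lib.BilM Pool.Agent.Lib.BilS

variable {n : ℕ} {v : Fin n → ℂ}

theorem fourier_rho (k : ℤ) (t : TT) : (fourier k t : ℂ) = rho t ^ k := by
  rw [fourier_apply, rho, toCircle_zsmul, Circle.coe_zpow]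

theorem rho_sarg_eq {e : ℂ} (he : e ≠ 0) : rho (sarg e) = e / (‖e‖ : ℂ) := by
  have h := rho_sarg e
  have hen : (‖e‖ : ℂ) ≠ 0 := by exact_mod_cast norm_ne_zero_iff.2 he
  rw [eq_div_iff hen, mul_comm, h]

/-- Parallel or orthogonal vectors have real proportional even harmonics. -/
theorem fourier_ort {e e' : ℂ} (he : e ≠ 0) (he' : e' ≠ 0) (h : ((e / e') ^ 2).im = 0) {k : ℤ}
    (hk : Even k) : ∃ r : ℝ, (fourier k (sarg e) : ℂ) = r * fourier k (sarg e') := by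
  obtain ⟨m, hm⟩ := hk
  have hen : (‖e‖ : ℂ) ≠ 0 := by exact_mod_cast norm_ne_zero_iff.2 he
  have hen' : (‖e'‖ : ℂ) ≠ 0 := by exact_mod_cast norm_ne_zero_iff.2 he'
  have h1 : (((e / e') ^ 2).re : ℂ) = (e / e') ^ 2 := by
    apply Complex.ext
    · simp
    · rw [ofReal_im, h]
  set c : ℝ := ((e / e') ^ 2).re * ‖e'‖ ^ 2 / ‖e‖ ^ 2 with hc
  have h2 : rho (sarg e) ^ 2 = (c : ℂ) * rho (sarg e') ^ 2 := by
    rw [rho_sarg_eq he, rho_sarg_eq he', hc]
    push_cast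
    rw [h1]
    field_simp
  refine ⟨c ^ m, ?_⟩
  rw [fourier_rho, fourier_rho, hm, ← two_mul, zpow_mul, zpow_mul]
  have h3 : ∀ z : ℂ, z ^ (2 : ℤ) = z ^ 2 := fun z => zpow_natCast z 2
  rw [h3, h3, h2, mul_zpow]
  push_cast
  rfl

/-- The areas of the antisymmetric part vanish. -/
theorem asym_area (hn : 3 ≤ n) (hv : ConvexIndependent ℝ v) {F : ℂ → ℝ → ℝ} (hF : LF F)
    (hhom : HomF F) (hs : ∀ i, SymAt F (v i) (v (nxt hn hv i) - v i)) (a : Fin n)
    (ho : ∀ i j, i ≠ a → j ≠ a → ((ed hn hv i / ed hn hv j) ^ 2).im = 0) (k : ℤ) :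
    Ar hn hv (fun i => cN (gam v (asym F) i) k) = 0 := by
  have hne : ∀ i, ed hn hv i ≠ 0 := fun i => v_sub_ne hv (nxt_side hn hv i).ne
  have hF' := asym_LF hF
  have hh' := asym_HomF hhom
  have hs' : ∀ i, SymAt (asym F) (v i) (v (nxt hn hv i) - v i) := fun i => asym_SymAt (hs i)
  have hM : ∀ i, Hom1 (Mf (asym F) (v i) (ed hn hv i)) := fun i => Mf_hom1 hF' hh' _ _
  rcases Int.even_or_odd k with hk | hk
  · -- even frequencies: all edges but one are parallel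
    have : Nontrivial (Fin n) := Fin.nontrivial_iff_two_le.2 (by omega)
    obtain ⟨b, hb⟩ := exists_ne a
    refine Ar_line' hn hv (U := I * fourier (-k) (sarg (ed hn hv b))) a (fun i hi => ?_)
    rw [← cN_Mf hn hv hF' hh' i k]
    obtain ⟨r, hr⟩ := phase (hM i) (hne i) (cr_neg_rl (hne i) (hs' i)) k
    obtain ⟨c, hc⟩ := fourier_ort (hne i) (hne b) (ho i b hi hb) (Even.neg hk)
    refine ⟨r * c, ?_⟩
    change cN (Mf (asym F) (v i) (ed hn hv i)) k = _
    rw [hr, hc]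
    push_cast
    ring
  · -- odd frequencies: all edges vanish
    refine Ar_line hn hv (U := 0) (fun i => ⟨0, ?_⟩)
    rw [← cN_Mf hn hv hF' hh' i k, cN_even (fun w => Mf_asym_even _ _ w) hk]
    simp

/-- Time reversal for line functions. -/
theorem rev_eq (hn : 3 ≤ n) (hv : ConvexIndependent ℝ v) {F : ℂ → ℝ → ℝ} (hF : LF F)
    (hhom : HomF F) (hs : ∀ i, SymAt F (v i) (v (nxt hn hv i) - v i)) (a : Fin n)
    (ho : ∀ i j, i ≠ a → j ≠ a → ((ed hn hv i / ed hn hv j) ^ 2).im = 0) :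
    ∀ᵐ p : ℂ × ℂ, p ∈ BV ×ˢ PP v → F p.1 (cr p.1 p.2) = F (-p.1) (cr (-p.1) p.2) := by
  have h := zero_of_area hn hv (asym_LF hF) (asym_HomF hhom) (fun i => asym_SymAt (hs i))
    (asym_area hn hv hF hhom hs a ho)
  filter_upwards [h] with p k1 hp
  have k2 := k1 hp
  unfold asym at k2
  rw [cr_neg_left]
  linarith

/-- Every invariant set is invariant under time reversal. -/
theorem time_rev (hn : 3 ≤ n) (hv : ConvexIndependent ℝ v) {A : Set (ℂ × ℂ)}
    (hA : MeasurableSet A)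
    (hcone : ∀ x w : ℂ, ∀ c : ℝ, 0 < c → ((x, w) ∈ A ↔ (x, (c : ℂ) * w) ∈ A))
    (HA : ∀ᵐ p ∂(volume : Measure (ℂ × ℂ)), HypAt v A p) (a : Fin n)
    (ho : ∀ i j, i ≠ a → j ≠ a → ((ed hn hv i / ed hn hv j) ^ 2).im = 0) :
    volume ({p : ℂ × ℂ | ¬ (p ∈ A ↔ (p.1, -p.2) ∈ A)} ∩ (PP v ×ˢ BV)) = 0 := by
  have hI : Inv v A := inv_of_hyp hv HA
  have hch := chord_of_hyp (v := v) HA
  have h1 := rev_eq hn hv (LF_FA (v := v) hA) (FA_hom hcone)
    (fun i => symAt_FA hn hv hI hch (nxt_side hn hv i)) a ho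
  have h2 : ∀ᵐ p : ℂ × ℂ, p ∈ PP v ×ˢ BV →
      FA v A p.2 (cr p.2 p.1) = FA v A (-p.2) (cr (-p.2) p.1) := by
    have h0 : MeasurePreserving (Prod.swap : ℂ × ℂ → ℂ × ℂ)
      ((volume : Measure ℂ).prod volume) ((volume : Measure ℂ).prod volume) :=
      Measure.measurePreserving_swap
    have h3 := h0.quasiMeasurePreserving.ae h1
    filter_upwards [h3] with p k1 hp
    exact k1 ⟨hp.2, hp.1⟩
  have h4 := ae_prod_FA (v := v) hA hch
  have h5 : ∀ᵐ p : ℂ × ℂ, p.1 ∈ PP v →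
      FA v A (-p.2) (cr (-p.2) p.1) = A.indicator (1 : ℂ × ℂ → ℝ) (p.1, -p.2) := by
    have h0 : MeasurePreserving (fun p : ℂ × ℂ => (p.1, -p.2))
      ((volume : Measure ℂ).prod volume) ((volume : Measure ℂ).prod volume) :=
      (MeasurePreserving.id (volume : Measure ℂ)).prod
        (Measure.measurePreserving_neg (volume : Measure ℂ))
    exact h0.quasiMeasurePreserving.ae h4
  rw [← compl_mem_ae_iff]
  filter_upwards [h2, h4, h5] with p k1 k2 k3 hp
  obtain ⟨hp1, hp2⟩ := hp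
  apply hp1
  have e := k1 hp2
  rw [k2 hp2.1, k3 hp2.1] at e
  constructor
  · intro h
    by_contra h'
    rw [indicator_of_mem h, indicator_of_notMem h'] at e
    norm_num at e
  · intro h
    by_contra h'
    rw [indicator_of_mem h, indicator_of_notMem h'] at e
    norm_num at e

end Pool.Agent.Lib.BilE
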