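import Pool.Agent.Lib.MP_7bc51d_an_spec.Quad

set_option autoImplicit false

/-!
Triangles: law of sines for the side amplitudes.
-/

namespace Pool.Agent.Lib.BilE

open Complex MeasureTheory Set Filter
open scoped ComplexConjugate Topology ENNReal NNReal Real
open Pool.Agent.Lib.Bil

/-- The three products of a degenerate relation. -/
theorem tri_law {U0 U1 U2 : ℂ} {s0 s1 s2 : ℝ} (h : (s0 : ℂ) * U0 + s1 * U1 + s2 * U2 = 0) :
    s0 * (U0 * conj U2).im = s1 * (U2 * conj U1).im ∧
    s1 * (U1 * conj U0).im = s2 * (U0 * conj U2).im ∧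
    s2 * (U2 * conj U1).im = s0 * (U1 * conj U0).im := by
  have hr := congrArg Complex.re h
  have hi := congrArg Complex.im h
  simp only [add_re, mul_re, ofReal_re, ofReal_im, zero_mul, sub_zero, zero_re] at hr
  simp only [add_im, mul_im, ofReal_re, ofReal_im, zero_mul, add_zero, zero_im] at hi
  simp only [mul_im, conj_re, conj_im]
  refine ⟨?_, ?_, ?_⟩
  · linear_combination U2.re * hi - U2.im * hr
  · linear_combination U0.re * hi - U0.im * hr
  · linear_combination U1.re * hi - U1.im * hr

/-- Law of sines. -/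
theorem tri_lam {y0 y1 y2 s0 s1 s2 : ℝ} (h0 : s0 * y0 = s1 * y2) (h1 : s1 * y1 = s2 * y0)
    (h2 : s2 * y2 = s0 * y1) (hy : ¬ (y0 = 0 ∧ y1 = 0 ∧ y2 = 0)) :
    ∃ l : ℝ, s0 = l * y2 ∧ s1 = l * y0 ∧ s2 = l * y1 := by
  by_cases k0 : y0 = 0
  · by_cases k1 : y1 = 0
    · have k2 : y2 ≠ 0 := fun k2 => hy ⟨k0, k1, k2⟩
      refine ⟨s0 / y2, ?_, ?_, ?_⟩
      · field_simp
      · field_simp; linarith
      · field_simp; linarith
    · refine ⟨s2 / y1, ?_, ?_, ?_⟩
      · field_simp; linarith
      · field_simp; linarith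
      · field_simp
  · refine ⟨s1 / y0, ?_, ?_, ?_⟩
    · field_simp; linarith
    · field_simp
    · field_simp; linarith

/-- Multiples of a unit complex number in terms of the angle at a vertex. -/
theorem unit_angle {p q r : ℂ} (h : 0 < cr (q - p) (r - q)) :
    (r - q) / (‖r - q‖ : ℂ) * conj ((q - p) / (‖q - p‖ : ℂ)) =
      Complex.exp (((π - EuclideanGeometry.angle p q r : ℝ) : ℂ) * I) := by
  have hq : q - p ≠ 0 := by
    intro h0; rw [h0] at h; simp [cr] at h
  have hr : r - q ≠ 0 := by
    intro h0; rw [h0] at h; simp [cr] at h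
  have hqn : (‖q - p‖ : ℂ) ≠ 0 := by exact_mod_cast norm_ne_zero_iff.2 hq
  have hrn : (‖r - q‖ : ℂ) ≠ 0 := by exact_mod_cast norm_ne_zero_iff.2 hr
  have hqp : 0 < ‖q - p‖ := norm_pos_iff.2 hq
  have hrp : 0 < ‖r - q‖ := norm_pos_iff.2 hr
  set z : ℂ := (r - q) / (‖r - q‖ : ℂ) * conj ((q - p) / (‖q - p‖ : ℂ)) with hz
  have hzn : ‖z‖ = 1 := by
    rw [hz, norm_mul, RCLike.norm_conj, norm_div, norm_div, norm_real, norm_real, norm_norm,
      norm_norm, div_self hrp.ne', div_self hqp.ne', one_mul]
  have hzim : 0 < z.im := by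
    have h1 : z = ((‖r - q‖⁻¹ * ‖q - p‖⁻¹ : ℝ) : ℂ) * (conj (q - p) * (r - q)) := by
      rw [hz, map_div₀, conj_ofReal]
      push_cast
      field_simp
    have h2 : (conj (q - p) * (r - q)).im = cr (q - p) (r - q) := by
      rw [cr_eq_im]
    rw [h1, im_ofReal_mul, h2]
    positivity
  have hangle : EuclideanGeometry.angle p q r = π - Complex.arg z := by
    unfold EuclideanGeometry.angle
    have hp' : p -ᵥ q ≠ 0 := by
      rw [vsub_eq_sub]
      intro h0
      apply hq
      rw [← neg_sub, h0, neg_zero]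
    have hr' : r -ᵥ q ≠ 0 := by rwa [vsub_eq_sub]
    rw [Complex.angle_eq_abs_arg hp' hr', vsub_eq_sub, vsub_eq_sub]
    have h3 : (p - q) / (r - q) = ((‖q - p‖ / ‖r - q‖ : ℝ) : ℂ) * (- conj z) := by
      have h4 : conj z = ((q - p) / (‖q - p‖ : ℂ)) * ((‖r - q‖ : ℂ) / (r - q)) := by
        rw [hz, map_mul, conj_conj, map_div₀, conj_ofReal]
        have h5 : conj (r - q) * (r - q) = (‖r - q‖ : ℂ) ^ 2 := by
          rw [← Complex.normSq_eq_conj_mul_self, Complex.normSq_eq_norm_sq]
          push_cast; rfl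
        have h6 : conj (r - q) / (‖r - q‖ : ℂ) = (‖r - q‖ : ℂ) / (r - q) := by
          rw [div_eq_div_iff hrn hr, h5]; ring
        rw [h6]; ring
      rw [h4]
      push_cast
      field_simp
      ring
    rw [h3, Complex.arg_real_mul _ (div_pos hqp hrp)]
    have hzarg : 0 < Complex.arg z := by
      rcases (Complex.arg_nonneg_iff.2 hzim.le).eq_or_lt with h | h
      · exfalso
        have := Complex.arg_eq_zero_iff.1 h.symm
        linarith [this.2]
      · exact h
    have hzlt : Complex.arg z < π := by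
      rcases (Complex.arg_le_pi z).eq_or_lt with h | h
      · exfalso
        have := Complex.arg_eq_pi_iff.1 h
        linarith [this.2]
      · exact h
    have h7 : Complex.arg (- conj z) = π - Complex.arg z := by
      have h8 : - conj z = Complex.exp (((π - Complex.arg z : ℝ) : ℂ) * I) := by
        have h9 : z = Complex.exp ((Complex.arg z : ℂ) * I) := by
          have := Complex.norm_mul_exp_arg_mul_I z
          rw [hzn, ofReal_one, one_mul] at this
          exact this.symm
        have h10 : conj z = Complex.exp (-((Complex.arg z : ℂ) * I)) := by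
          conv_lhs => rw [h9]
          rw [← Complex.exp_conj, map_mul, conj_I, conj_ofReal]
          congr 1
          ring
        rw [h10]
        push_cast
        rw [sub_mul, sub_eq_add_neg, Complex.exp_add, Complex.exp_pi_mul_I]
        ring
      rw [h8, Complex.arg_exp_mul_I, toIocMod_eq_self]
      · constructor <;> linarith
    rw [h7, abs_of_pos (by linarith)]
  rw [hangle]
  have h11 := Complex.norm_mul_exp_arg_mul_I z
  rw [hzn, ofReal_one, one_mul] at h11
  rw [sub_sub_cancel]
  exact h11.symm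

/-- Imaginary parts of powers. -/
theorem pow_im_angle {z : ℂ} {α : ℝ} (h : z = Complex.exp (((π - α : ℝ) : ℂ) * I)) (k : ℕ) :
    (z ^ k).im = (-1) ^ (k + 1) * Real.sin (k * α) := by
  rw [h, ← Complex.exp_nat_mul]
  have h1 : (k : ℂ) * (((π - α : ℝ) : ℂ) * I) = ((k * (π - α) : ℝ) : ℂ) * I := by
    push_cast; ring
  rw [h1, Complex.exp_ofReal_mul_I_im]
  have h2 : (k : ℝ) * (π - α) = k * π - k * α := by ring
  rw [h2, Real.sin_nat_mul_pi_sub, pow_succ]
  ring

end Pool.Agent.Lib.BilE
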