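import Pool.Agent.Lib.MP_7bc51d_an_spec.Sets

set_option autoImplicit false

/-!
Triangles.
-/

namespace Pool.Agent.Lib.BilE

open Complex MeasureTheory Set Filter AddCircle
open scoped ComplexConjugate Topology ENNReal NNReal
open Pool.Agent.Lib.Bil Pool.Agent.Lib.BilM Pool.Agent.Lib.BilS

/-- The angle of the triangle at vertex `a`. -/
noncomputable def tang (v : Fin 3 → ℂ) (a : Fin 3) : ℝ :=
  EuclideanGeometry.angle (v (a + 2)) (v a) (v (a + 1))

/-- Amplitudes in triangles. -/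
theorem tri_amp (hn : 3 ≤ 3) {v : Fin 3 → ℂ} (hv : ConvexIndependent ℝ v)
    (hc : ∀ a, nxt hn hv a = a + 1) (k : ℕ) :
    ∃ lam : Set (ℂ × ℂ) → ℝ, ∀ A B : Set (ℂ × ℂ), IV v A → IV v B →
      ((∃ a, Real.sin (k * tang v a) ≠ 0) →
        ∀ a, amp v A a (a + 1) k = lam A * Real.sin (k * tang v (a + 2))) ∧
      BQ 3 (fun a => amp v A a (nxt hn hv a) k) (fun a => amp v B a (nxt hn hv a) k)
        (fun a b => ((ud hn hv b * conj (ud hn hv a)) ^ k).im) =
      2 * (-1) ^ (k + 1) * lam A * lam B * ∏ a, Real.sin (k * tang v a) := by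
  have c0 : nxt hn hv 0 = 1 := hc 0
  have c1 : nxt hn hv 1 = 2 := hc 1
  have c2 : nxt hn hv 2 = 0 := hc 2
  set S0 := Real.sin (k * tang v 0) with hS0
  set S1 := Real.sin (k * tang v 1) with hS1
  set S2 := Real.sin (k * tang v 2) with hS2
  set ε : ℝ := (-1) ^ (k + 1) with hε
  have hεε : ε * ε = 1 := by
    rw [hε, ← pow_add, ← two_mul, pow_mul]; norm_num
  have y01 : ((ud hn hv 1 * conj (ud hn hv 0)) ^ k).im = ε * S1 := by
    have := ud_angle hn hv 0 k
    rw [c0, c1] at this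
    exact this
  have y12 : ((ud hn hv 2 * conj (ud hn hv 1)) ^ k).im = ε * S2 := by
    have := ud_angle hn hv 1 k
    rw [c1, c2] at this
    exact this
  have y20 : ((ud hn hv 0 * conj (ud hn hv 2)) ^ k).im = ε * S0 := by
    have := ud_angle hn hv 2 k
    rw [c2, c0] at this
    exact this
  have y02 : ((ud hn hv 2 * conj (ud hn hv 0)) ^ k).im = -(ε * S0) := by
    rw [← y20, ← Complex.conj_im, map_pow, map_mul, conj_conj, mul_comm]
  have hpow : ∀ a b : Fin 3, (ud hn hv a ^ (k : ℤ)) * conj (ud hn hv b ^ (k : ℤ)) =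
      (ud hn hv a * conj (ud hn hv b)) ^ k := by
    intro a b
    rw [zpow_natCast, zpow_natCast, map_pow, mul_pow]
  -- the law of sines for one set
  have hex : ∀ A : Set (ℂ × ℂ), ∃ l : ℝ, IV v A → (S0 ≠ 0 ∨ S1 ≠ 0 ∨ S2 ≠ 0) →
      amp v A 0 1 k = l * S2 ∧ amp v A 1 2 k = l * S0 ∧ amp v A 2 0 k = l * S1 := by
    intro A
    by_cases hA : IV v A
    · by_cases hS : S0 ≠ 0 ∨ S1 ≠ 0 ∨ S2 ≠ 0
      · have hcl := closing_set hn hv hA k
        rw [Fin.sum_univ_three, c0, c1, c2] at hcl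
        obtain ⟨g0, g1, g2⟩ := tri_law hcl
        rw [hpow 0 2, hpow 2 1, y20, y12] at g0
        rw [hpow 1 0, hpow 0 2, y20, y01] at g1
        rw [hpow 2 1, hpow 1 0, y12, y01] at g2
        have hε0 : ε ≠ 0 := by
          intro h; rw [h] at hεε; norm_num at hεε
        obtain ⟨l, l0, l1, l2⟩ := tri_lam g0 g1 g2 (by
          rintro ⟨k0, k1, k2⟩
          rcases hS with h | h | h
          · exact h ((mul_eq_zero.1 k0).resolve_left hε0)
          · exact h ((mul_eq_zero.1 k1).resolve_left hε0)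
          · exact h ((mul_eq_zero.1 k2).resolve_left hε0))
        refine ⟨l * ε, fun _ _ => ⟨?_, ?_, ?_⟩⟩
        · rw [l0]; ring
        · rw [l1]; ring
        · rw [l2]; ring
      · exact ⟨0, fun _ h => absurd h hS⟩
    · exact ⟨0, fun h => absurd h hA⟩
  obtain ⟨lam, hlam⟩ := Classical.axiomOfChoice hex
  refine ⟨lam, fun A B hA hB => ⟨?_, ?_⟩⟩
  · rintro ⟨a, ha⟩
    have hS : S0 ≠ 0 ∨ S1 ≠ 0 ∨ S2 ≠ 0 := by
      fin_cases a
      · exact Or.inl ha
      · exact Or.inr (Or.inl ha)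
      · exact Or.inr (Or.inr ha)
    obtain ⟨k0, k1, k2⟩ := hlam A hA hS
    intro b
    fin_cases b
    · exact k0
    · exact k1
    · exact k2
  · have hB' : BQ 3 (fun a => amp v A a (nxt hn hv a) k) (fun a => amp v B a (nxt hn hv a) k)
        (fun a b => ((ud hn hv b * conj (ud hn hv a)) ^ k).im) =
        (amp v A 0 1 k * amp v B 1 2 k + amp v B 0 1 k * amp v A 1 2 k) * (ε * S1) +
        ((amp v A 0 1 k * amp v B 2 0 k + amp v B 0 1 k * amp v A 2 0 k) * (-(ε * S0)) +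
        (amp v A 1 2 k * amp v B 2 0 k + amp v B 1 2 k * amp v A 2 0 k) * (ε * S2)) := by
      unfold BQ
      simp only [Fin.sum_univ_three]
      rw [c0, c1, c2, y01, y12, y02]
      have d1 : (0 : Fin 3) < 1 := by decide
      have d2 : (0 : Fin 3) < 2 := by decide
      have d3 : (1 : Fin 3) < 2 := by decide
      have d4 : ¬ (0 : Fin 3) < 0 := by decide
      have d5 : ¬ (1 : Fin 3) < 0 := by decide
      have d6 : ¬ (2 : Fin 3) < 0 := by decide
      have d7 : ¬ (1 : Fin 3) < 1 := by decide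
      have d8 : ¬ (2 : Fin 3) < 1 := by decide
      have d9 : ¬ (2 : Fin 3) < 2 := by decide
      rw [if_pos d1, if_pos d2, if_pos d3, if_neg d4, if_neg d5, if_neg d6, if_neg d7, if_neg d8,
        if_neg d9]
      ring
    rw [hB', Fin.prod_univ_three, ← hS0, ← hS1, ← hS2]
    by_cases hS : S0 ≠ 0 ∨ S1 ≠ 0 ∨ S2 ≠ 0
    · obtain ⟨a0, a1, a2⟩ := hlam A hA hS
      obtain ⟨b0, b1, b2⟩ := hlam B hB hS
      rw [a0, a1, a2, b0, b1, b2]
      ring
    · push Not at hS
      obtain ⟨h0, h1, h2⟩ := hS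
      rw [h0, h1, h2]
      ring

end Pool.Agent.Lib.BilE
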